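import Pool.Agent.NH22.ST.Stm2

/-!
# Project US: joint moments of the product measure (US-22)
-/

set_option autoImplicit false

namespace Pool.Agent.NH22.ST.E2

open Pool.Agent.NH22.ST Finset MeasureTheory ProbabilityTheory Filter Topology NNReal

theorem t_GMOM (hG : S_GM) : S_GMOM := by
  intro i e
  have h1 : ∀ j : Fin i, Integrable (fun x : ℝ => x ^ e j)
      (gaussianReal (et ((j : ℕ) + 1)) (((j : ℕ) : ℝ≥0) + 1)) ∧
      ∫ x, x ^ e j ∂(gaussianReal (et ((j : ℕ) + 1)) (((j : ℕ) : ℝ≥0) + 1)) =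
        MM ((j : ℕ) + 1) (e j) := by
    intro j
    have h := hG ((j : ℕ) + 1) (Nat.succ_pos _) (e j)
    rw [show ((((j : ℕ) + 1 : ℕ) : ℝ≥0)) = ((j : ℕ) : ℝ≥0) + 1 by push_cast; rfl] at h
    exact h
  refine ⟨?_, ?_⟩
  · exact Integrable.fintype_prod (fun j => (h1 j).1)
  · unfold Gm
    rw [integral_fintype_prod_eq_prod (𝕜 := ℝ) (fun j (x : ℝ) => x ^ e j)]
    exact Finset.prod_congr rfl fun j _ => (h1 j).2

end Pool.Agent.NH22.ST.E2
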