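import Pool.Agent.NH22.ST.Stm2

/-!
# The moments of linear forms do not grow too fast
-/

set_option autoImplicit false

namespace Pool.Agent.NH22.ST.E3

open Finset MeasureTheory ProbabilityTheory Filter Topology NNReal

lemma integrable_exp (i : ℕ) (ξ : Fin i → ℝ) :
    Integrable (fun z : Fin i → ℝ => Real.exp (∑ j, ξ j * z j)) (Gm i) := by
  have h1 : (fun z : Fin i → ℝ => Real.exp (∑ j, ξ j * z j)) =
      fun z : Fin i → ℝ => ∏ j, (fun (j : Fin i) (x : ℝ) => Real.exp (ξ j * x)) j (z j) := by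
    funext z
    rw [Real.exp_sum]
  rw [h1]
  unfold Gm
  exact Integrable.fintype_prod (f := fun (j : Fin i) (x : ℝ) => Real.exp (ξ j * x))
    fun j => integrable_exp_mul_gaussianReal (ξ j)

lemma integrable_cosh (i : ℕ) (ξ : Fin i → ℝ) :
    Integrable (fun z : Fin i → ℝ => Real.cosh (∑ j, ξ j * z j)) (Gm i) := by
  have h1 := integrable_exp i ξ
  have h2 := integrable_exp i fun j => -ξ j
  have h3 : (fun z : Fin i → ℝ => Real.cosh (∑ j, ξ j * z j)) =
      fun z => (Real.exp (∑ j, ξ j * z j) + Real.exp (∑ j, -ξ j * z j)) / 2 := by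
    funext z
    rw [Real.cosh_eq]
    congr 2
    rw [← Finset.sum_neg_distrib]
    congr 1
    exact Finset.sum_congr rfl fun j _ => by ring
  rw [h3]
  exact (h1.add h2).div_const 2

lemma term_le (y : ℝ) (n : ℕ) : y ^ (2 * n) / (2 * n).factorial ≤ Real.cosh y := by
  have h1 := Real.hasSum_cosh y
  refine le_hasSum h1 n fun m _ => ?_
  have : 0 ≤ y ^ (2 * m) := by
    rw [pow_mul]
    positivity
  positivity

lemma sum_le (y : ℝ) (N : ℕ) :
    ∑ n ∈ range N, y ^ (2 * n) / (2 * n).factorial ≤ Real.cosh y := by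
  have h1 := Real.hasSum_cosh y
  refine sum_le_hasSum _ (fun m _ => ?_) h1
  have : 0 ≤ y ^ (2 * m) := by
    rw [pow_mul]
    positivity
  positivity

lemma integrable_term (i : ℕ) (ξ : Fin i → ℝ) (n : ℕ) :
    Integrable (fun z : Fin i → ℝ => (∑ j, ξ j * z j) ^ (2 * n) / (2 * n).factorial) (Gm i) := by
  refine Integrable.mono' (integrable_cosh i ξ) ?_ ?_
  · refine Measurable.aestronglyMeasurable ?_
    fun_prop
  · refine Eventually.of_forall fun z => ?_
    have h0 : 0 ≤ (∑ j, ξ j * z j) ^ (2 * n) / ((2 * n).factorial : ℝ) := by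
      have : 0 ≤ (∑ j, ξ j * z j) ^ (2 * n) := by
        rw [pow_mul]
        positivity
      positivity
    rw [Real.norm_of_nonneg h0]
    exact term_le _ n

theorem t_GTAIL : S_GTAIL := by
  intro i ξ
  have h0 : ∀ n : ℕ, 0 ≤ (∫ z, (∑ j, ξ j * z j) ^ (2 * n) ∂(Gm i)) / (2 * n).factorial := by
    intro n
    refine div_nonneg (integral_nonneg fun z => ?_) (Nat.cast_nonneg _)
    show 0 ≤ (∑ j, ξ j * z j) ^ (2 * n)
    rw [pow_mul]
    positivity
  have h1 : ∀ N : ℕ, ∑ n ∈ range N,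
      (∫ z, (∑ j, ξ j * z j) ^ (2 * n) ∂(Gm i)) / (2 * n).factorial ≤
      ∫ z, Real.cosh (∑ j, ξ j * z j) ∂(Gm i) := by
    intro N
    have h2 : ∑ n ∈ range N, (∫ z, (∑ j, ξ j * z j) ^ (2 * n) ∂(Gm i)) / (2 * n).factorial =
        ∫ z, ∑ n ∈ range N, (∑ j, ξ j * z j) ^ (2 * n) / ((2 * n).factorial : ℝ) ∂(Gm i) := by
      rw [integral_finsetSum _ fun n _ => integrable_term i ξ n]
      refine Finset.sum_congr rfl fun n _ => ?_
      rw [integral_div]
    rw [h2]
    exact integral_mono (integrable_finsetSum _ fun n _ => integrable_term i ξ n)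
      (integrable_cosh i ξ) fun z => sum_le _ N
  exact (summable_of_sum_range_le h0 h1).tendsto_atTop_zero

end Pool.Agent.NH22.ST.E3
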