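import Pool.Agent.NH22.ST.Stm2

/-!
# Project US, second part: convergence of the characteristic functions
-/

set_option autoImplicit false

namespace Pool.Agent.NH22.ST.E4

open Pool.Agent.NH22.ST
open Finset MeasureTheory ProbabilityTheory Filter Topology NNReal

/-- the Taylor polynomial of `exp (i y)` -/
noncomputable def PP (N : ℕ) (y : ℝ) : ℂ :=
  ∑ k ∈ range N, (Complex.I ^ k / (k.factorial : ℂ)) * ((y ^ k : ℝ) : ℂ)

lemma deriv_term (k : ℕ) (y : ℝ) :
    HasDerivAt (fun y : ℝ => (Complex.I ^ (k + 1) / ((k + 1).factorial : ℂ)) * ((y ^ (k + 1) : ℝ) : ℂ))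
      (Complex.I * ((Complex.I ^ k / (k.factorial : ℂ)) * ((y ^ k : ℝ) : ℂ))) y := by
  have h1 : HasDerivAt (fun y : ℝ => y ^ (k + 1)) (((k : ℝ) + 1) * y ^ k) y := by
    have := hasDerivAt_pow (k + 1) y
    simpa using this
  have h2 := (h1.ofReal_comp).const_mul (Complex.I ^ (k + 1) / ((k + 1).factorial : ℂ))
  have e : (Complex.I ^ (k + 1) / ((k + 1).factorial : ℂ)) * ((((k : ℝ) + 1) * y ^ k : ℝ) : ℂ) =
      Complex.I * ((Complex.I ^ k / (k.factorial : ℂ)) * ((y ^ k : ℝ) : ℂ)) := by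
    have hk : ((k + 1 : ℕ) : ℂ) ≠ 0 := by exact_mod_cast Nat.succ_ne_zero k
    have hf : (k.factorial : ℂ) ≠ 0 := by exact_mod_cast Nat.factorial_ne_zero k
    rw [Nat.factorial_succ]
    push_cast
    push_cast at hk
    field_simp
    ring
  rw [e] at h2
  exact h2

lemma deriv_PP (N : ℕ) (y : ℝ) : HasDerivAt (PP (N + 1)) (Complex.I * PP N y) y := by
  have h : PP (N + 1) = fun y : ℝ => (∑ k ∈ range N,
      (Complex.I ^ (k + 1) / ((k + 1).factorial : ℂ)) * ((y ^ (k + 1) : ℝ) : ℂ)) + 1 := by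
    funext y
    unfold PP
    rw [Finset.sum_range_succ']
    simp
  rw [h]
  apply HasDerivAt.add_const
  unfold PP
  rw [Finset.mul_sum]
  exact HasDerivAt.fun_sum fun k _ => deriv_term k y

lemma deriv_exp (y : ℝ) : HasDerivAt (fun y : ℝ => Complex.exp ((y : ℂ) * Complex.I))
    (Complex.I * Complex.exp ((y : ℂ) * Complex.I)) y := by
  have h1 : HasDerivAt (fun y : ℝ => (y : ℂ) * Complex.I) Complex.I y := by
    have := (Complex.ofRealCLM.hasDerivAt (x := y)).mul_const Complex.I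
    simpa using this
  have h2 := h1.cexp
  rw [mul_comm] at h2
  exact h2

lemma taylor_pos (N : ℕ) : ∀ y : ℝ, 0 ≤ y →
    ‖Complex.exp ((y : ℂ) * Complex.I) - PP N y‖ ≤ y ^ N / (N.factorial : ℝ) := by
  induction N with
  | zero =>
    intro y _
    unfold PP
    simp [Complex.norm_exp_ofReal_mul_I]
  | succ N ih =>
    intro y hy
    have hd : ∀ x : ℝ, HasDerivAt (fun y : ℝ => Complex.exp ((y : ℂ) * Complex.I) - PP (N + 1) y)
        (Complex.I * (Complex.exp ((x : ℂ) * Complex.I) - PP N x)) x := by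
      intro x
      rw [mul_sub]
      exact (deriv_exp x).sub (deriv_PP N x)
    have hB : ∀ x : ℝ, HasDerivAt (fun x : ℝ => x ^ (N + 1) / ((N + 1).factorial : ℝ))
        (x ^ N / (N.factorial : ℝ)) x := by
      intro x
      have h1 := (hasDerivAt_pow (N + 1) x).div_const ((N + 1).factorial : ℝ)
      have e : ((N + 1 : ℕ) : ℝ) * x ^ (N + 1 - 1) / ((N + 1).factorial : ℝ) =
          x ^ N / (N.factorial : ℝ) := by
        rw [Nat.factorial_succ, Nat.add_sub_cancel]
        have hk : ((N : ℝ) + 1) ≠ 0 := by positivity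
        have hf : (N.factorial : ℝ) ≠ 0 := by exact_mod_cast Nat.factorial_ne_zero N
        push_cast
        field_simp
      rw [e] at h1
      exact h1
    refine image_norm_le_of_norm_deriv_right_le_deriv_boundary (a := 0) (b := y)
      (f' := fun x => Complex.I * (Complex.exp ((x : ℂ) * Complex.I) - PP N x))
      (fun x _ => (hd x).continuousAt.continuousWithinAt)
      (fun x _ => (hd x).hasDerivWithinAt) ?_ hB ?_ ⟨hy, le_rfl⟩
    · unfold PP
      rw [Finset.sum_range_succ']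
      simp
    · intro x hx
      rw [norm_mul, Complex.norm_I, one_mul]
      exact ih x hx.1

lemma PP_neg (N : ℕ) (y : ℝ) : PP N (-y) = (starRingEnd ℂ) (PP N y) := by
  unfold PP
  rw [map_sum]
  refine Finset.sum_congr rfl fun k _ => ?_
  rw [map_mul, map_div₀, map_pow, Complex.conj_I, Complex.conj_ofReal, map_natCast]
  rw [neg_pow Complex.I, neg_pow y]
  push_cast
  ring

lemma taylor (N : ℕ) (y : ℝ) :
    ‖Complex.exp ((y : ℂ) * Complex.I) - PP N y‖ ≤ |y| ^ N / (N.factorial : ℝ) := by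
  rcases le_total 0 y with hy | hy
  · rw [abs_of_nonneg hy]
    exact taylor_pos N y hy
  · rw [abs_of_nonpos hy]
    have h := taylor_pos N (-y) (by linarith)
    have e1 : Complex.exp (((-y : ℝ) : ℂ) * Complex.I) - PP N (-y) =
        (starRingEnd ℂ) (Complex.exp ((y : ℂ) * Complex.I) - PP N y) := by
      rw [map_sub, PP_neg, ← Complex.exp_conj, map_mul, Complex.conj_I, Complex.conj_ofReal]
      push_cast
      ring_nf
    rw [e1, Complex.norm_conj] at h
    exact h

/-- the powers of a linear form -/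
lemma expand (i : ℕ) (ξ z : Fin i → ℝ) (k : ℕ) : (∑ j, ξ j * z j) ^ k =
    ∑ c : Fin k → Fin i, (∏ l, ξ (c l)) * ∏ j, z j ^ (univ.filter fun l => c l = j).card := by
  rw [Fintype.sum_pow]
  refine Finset.sum_congr rfl fun c _ => ?_
  rw [Finset.prod_mul_distrib]
  congr 1
  rw [← Finset.prod_fiberwise' univ c z]
  refine Finset.prod_congr rfl fun j _ => ?_
  rw [Finset.prod_const]

instance (i : ℕ) : IsProbabilityMeasure (Gm i) := by
  unfold Gm
  infer_instance

lemma int_pow (hM : S_GMOM) (i : ℕ) (ξ : Fin i → ℝ) (k : ℕ) :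
    Integrable (fun z : Fin i → ℝ => (∑ j, ξ j * z j) ^ k) (Gm i) := by
  have h : (fun z : Fin i → ℝ => (∑ j, ξ j * z j) ^ k) = fun z =>
      ∑ c : Fin k → Fin i, (∏ l, ξ (c l)) * ∏ j, z j ^ (univ.filter fun l => c l = j).card := by
    funext z
    exact expand i ξ z k
  rw [h]
  exact integrable_finset_sum _ fun c _ => ((hM i _).1).const_mul _

/-- the moments of a linear form -/
lemma tend_pow (hM : S_GMOM) (i : ℕ) (s : ℕ → Finset ℕ) (x : ℕ → ℕ → Fin i → ℝ)
    (hs : MomConv i s x) (ξ : Fin i → ℝ) (k : ℕ) :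
    Tendsto (fun m => (∑ n ∈ s m, (∑ j, ξ j * x m n j) ^ k) / ((s m).card : ℝ)) atTop
      (𝓝 (∫ z, (∑ j, ξ j * z j) ^ k ∂(Gm i))) := by
  have h1 : ∫ z, (∑ j, ξ j * z j) ^ k ∂(Gm i) = ∑ c : Fin k → Fin i, (∏ l, ξ (c l)) *
      ∏ j : Fin i, MM ((j : ℕ) + 1) ((univ.filter fun l => c l = j).card) := by
    simp only [expand]
    rw [integral_finset_sum _ fun c _ => ((hM i _).1).const_mul _]
    refine Finset.sum_congr rfl fun c _ => ?_
    rw [integral_const_mul, (hM i _).2]
  have h2 : (fun m => (∑ n ∈ s m, (∑ j, ξ j * x m n j) ^ k) / ((s m).card : ℝ)) = fun m =>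
      ∑ c : Fin k → Fin i, (∏ l, ξ (c l)) *
        ((∑ n ∈ s m, ∏ j, x m n j ^ (univ.filter fun l => c l = j).card) / ((s m).card : ℝ)) := by
    funext m
    simp only [expand]
    rw [Finset.sum_comm, Finset.sum_div]
    refine Finset.sum_congr rfl fun c _ => ?_
    rw [← Finset.mul_sum, mul_div_assoc]
  rw [h1, h2]
  exact tendsto_finset_sum _ fun c _ => (hs _).const_mul _

theorem t_GCHAR (hM : S_GMOM) (hT : S_GTAIL) : S_GCHAR := by
  intro i s x hne hs ξ
  obtain ⟨Y, hY⟩ : ∃ Y : (Fin i → ℝ) → ℝ, Y = fun z => ∑ j, ξ j * z j := ⟨_, rfl⟩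
  have hYz : ∀ z, ∑ j, ξ j * z j = Y z := fun z => by rw [hY]
  have hYc : Continuous Y := by
    rw [hY]
    fun_prop
  have hpow := int_pow hM i ξ
  have htend := tend_pow hM i s x hs ξ
  have htail := hT i ξ
  simp only [hYz] at hpow htend htail ⊢
  have hexpI : Integrable (fun z => Complex.exp ((Y z : ℂ) * Complex.I)) (Gm i) := by
    refine (integrable_const (1 : ℝ)).mono' ?_ (Eventually.of_forall fun z => ?_)
    · exact Continuous.aestronglyMeasurable (by fun_prop)
    · rw [Complex.norm_exp_ofReal_mul_I]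
  have hcardpos : ∀ m, (0 : ℝ) < ((s m).card : ℝ) := fun m => by
    exact_mod_cast (hne m).card_pos
  -- the polynomial part
  have hPPint : ∀ N, Integrable (fun z => PP N (Y z)) (Gm i) := by
    intro N
    unfold PP
    exact integrable_finset_sum _ fun k _ => ((hpow k).ofReal).const_mul _
  have hPP : ∀ N, Tendsto (fun m => (∑ n ∈ s m, PP N (Y (x m n))) / ((s m).card : ℂ)) atTop
      (𝓝 (∫ z, PP N (Y z) ∂(Gm i))) := by
    intro N
    have h1 : ∫ z, PP N (Y z) ∂(Gm i) = ∑ k ∈ range N, (Complex.I ^ k / (k.factorial : ℂ)) *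
        ((∫ z, Y z ^ k ∂(Gm i) : ℝ) : ℂ) := by
      unfold PP
      rw [integral_finset_sum _ fun k _ => ((hpow k).ofReal).const_mul _]
      refine Finset.sum_congr rfl fun k _ => ?_
      rw [integral_const_mul]
      congr 1
      exact integral_ofReal
    have h2 : (fun m => (∑ n ∈ s m, PP N (Y (x m n))) / ((s m).card : ℂ)) = fun m =>
        ∑ k ∈ range N, (Complex.I ^ k / (k.factorial : ℂ)) *
          (((∑ n ∈ s m, Y (x m n) ^ k) / ((s m).card : ℝ) : ℝ) : ℂ) := by
      funext m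
      unfold PP
      rw [Finset.sum_comm, Finset.sum_div]
      refine Finset.sum_congr rfl fun k _ => ?_
      rw [← Finset.mul_sum, mul_div_assoc]
      push_cast
      rfl
    rw [h1, h2]
    exact tendsto_finset_sum _ fun k _ =>
      ((Complex.continuous_ofReal.tendsto _).comp (htend k)).const_mul _
  -- the remainder
  have hrem : ∀ n m, ‖(∑ a ∈ s m, Complex.exp ((Y (x m a) : ℂ) * Complex.I)) / ((s m).card : ℂ) -
      (∑ a ∈ s m, PP (2 * n) (Y (x m a))) / ((s m).card : ℂ)‖ ≤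
      ((∑ a ∈ s m, Y (x m a) ^ (2 * n)) / ((s m).card : ℝ)) / ((2 * n).factorial : ℝ) := by
    intro n m
    rw [← _root_.sub_div, ← Finset.sum_sub_distrib, norm_div, Complex.norm_natCast, div_right_comm]
    apply div_le_div_of_nonneg_right _ (hcardpos m).le
    refine (norm_sum_le _ _).trans ?_
    rw [Finset.sum_div]
    refine Finset.sum_le_sum fun a _ => ?_
    have h := taylor (2 * n) (Y (x m a))
    rwa [(even_two_mul n).pow_abs] at h
  have hrem2 : ∀ n, ‖∫ z, Complex.exp ((Y z : ℂ) * Complex.I) ∂(Gm i) -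
      ∫ z, PP (2 * n) (Y z) ∂(Gm i)‖ ≤
      (∫ z, Y z ^ (2 * n) ∂(Gm i)) / ((2 * n).factorial : ℝ) := by
    intro n
    rw [← integral_sub hexpI (hPPint _)]
    refine (norm_integral_le_integral_norm _).trans ?_
    rw [← integral_div]
    refine integral_mono ((hexpI.sub (hPPint _)).norm) ((hpow _).div_const _) fun z => ?_
    have h := taylor (2 * n) (Y z)
    rwa [(even_two_mul n).pow_abs] at h
  rw [Metric.tendsto_atTop]
  intro ε hε
  obtain ⟨n, hn⟩ := (htail.eventually (gt_mem_nhds (show (0 : ℝ) < ε / 4 by linarith))).exists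
  have h1 := (htend (2 * n)).div_const ((2 * n).factorial : ℝ)
  have h2 := h1.eventually (gt_mem_nhds hn)
  have h3 := (Metric.tendsto_atTop.1 (hPP (2 * n))) (ε / 4) (by linarith)
  obtain ⟨m₁, hm₁⟩ := eventually_atTop.1 h2
  obtain ⟨m₂, hm₂⟩ := h3
  refine ⟨max m₁ m₂, fun m hm => ?_⟩
  have k1 := hm₁ m ((le_max_left _ _).trans hm)
  have k2 := hm₂ m ((le_max_right _ _).trans hm)
  have k3 := hrem n m
  have k4 := hrem2 n
  rw [dist_eq_norm] at k2 ⊢
  generalize (∑ a ∈ s m, Complex.exp ((Y (x m a) : ℂ) * Complex.I)) / ((s m).card : ℂ) = A at *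
  generalize (∑ a ∈ s m, PP (2 * n) (Y (x m a))) / ((s m).card : ℂ) = B at *
  generalize ∫ z, Complex.exp ((Y z : ℂ) * Complex.I) ∂(Gm i) = A' at *
  generalize ∫ z, PP (2 * n) (Y z) ∂(Gm i) = B' at *
  have e : A - A' = (A - B) + (B - B') - (A' - B') := by ring
  rw [e]
  calc ‖(A - B) + (B - B') - (A' - B')‖ ≤ ‖(A - B) + (B - B')‖ + ‖A' - B'‖ := norm_sub_le _ _
    _ ≤ ‖A - B‖ + ‖B - B'‖ + ‖A' - B'‖ := by
      have := norm_add_le (A - B) (B - B')
      linarith
    _ < ε := by linarith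

end Pool.Agent.NH22.ST.E4
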