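import Pool.Agent.NH22.ST.Stm2

/-!
# Project US, US-25: the limit law has a continuous distribution function (helper26)
-/

set_option autoImplicit false

namespace Pool.Agent.NH22.ST.E5

open Pool.Agent.NH22.ST Finset MeasureTheory ProbabilityTheory Filter Topology NNReal

/-- the recursion for the values -/
lemma eval_succ (i : ℕ) (f : ℕ → ℝ) : MvPolynomial.eval f (Ap (i + 1)) =
    1 / ((i : ℝ) + 1) * ∑ j : Fin (i + 1), f j * MvPolynomial.eval f (Ap (i - j)) := by
  rw [Ap, map_mul, MvPolynomial.eval_C, map_sum]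
  congr 1
  refine sum_congr rfl fun j _ => ?_
  rw [map_mul, MvPolynomial.eval_X]

/-- the value of `Ap l` depends on the first `l` variables only -/
lemma eval_dep (l : ℕ) : ∀ f f' : ℕ → ℝ, (∀ j < l, f j = f' j) →
    MvPolynomial.eval f (Ap l) = MvPolynomial.eval f' (Ap l) := by
  induction l using Nat.strong_induction_on with
  | _ l ih =>
    intro f f' h
    rcases l with _ | i
    · rw [Ap, map_one, map_one]
    · rw [eval_succ, eval_succ]
      congr 1
      refine sum_congr rfl fun j _ => ?_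
      rw [h j j.2, ih (i - j) (by omega) f f' fun k hk => h k (by omega)]

/-- the extension of a vector by zero -/
noncomputable def ex (i : ℕ) (z : Fin i → ℝ) (j : ℕ) : ℝ := if h : j < i then z ⟨j, h⟩ else 0

lemma ev_eq (i : ℕ) (z : Fin i → ℝ) : ev i z = MvPolynomial.eval (ex i z) (Ap i) := rfl

lemma ex_lt {i : ℕ} {z : Fin i → ℝ} {j : ℕ} (h : j < i) : ex i z j = z ⟨j, h⟩ := dif_pos h

/-- the last variable is isolated -/
lemma ev_last (i : ℕ) (z z' : Fin (i + 1) → ℝ) (h : ∀ j : Fin i, z j.castSucc = z' j.castSucc) :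
    ev (i + 1) z - ev (i + 1) z' = 1 / ((i : ℝ) + 1) * (z (Fin.last i) - z' (Fin.last i)) := by
  have h1 : ∀ j < i, ex (i + 1) z j = ex (i + 1) z' j := by
    intro j hj
    rw [ex_lt (by omega : j < i + 1), ex_lt (by omega : j < i + 1)]
    exact h ⟨j, hj⟩
  rw [ev_eq, ev_eq, eval_succ, eval_succ, Fin.sum_univ_castSucc, Fin.sum_univ_castSucc]
  have h2 : ∑ j : Fin i, ex (i + 1) z (j.castSucc : Fin (i + 1)) *
      MvPolynomial.eval (ex (i + 1) z) (Ap (i - (j.castSucc : Fin (i + 1)))) =
      ∑ j : Fin i, ex (i + 1) z' (j.castSucc : Fin (i + 1)) *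
      MvPolynomial.eval (ex (i + 1) z') (Ap (i - (j.castSucc : Fin (i + 1)))) := by
    refine sum_congr rfl fun j _ => ?_
    rw [Fin.val_castSucc, h1 j j.2, eval_dep _ _ _ fun k hk => h1 k (by omega)]
  have h3 : ∀ w : Fin (i + 1) → ℝ, ex (i + 1) w (Fin.last i : Fin (i + 1)) *
      MvPolynomial.eval (ex (i + 1) w) (Ap (i - (Fin.last i : Fin (i + 1)))) = w (Fin.last i) := by
    intro w
    rw [Fin.val_last, Nat.sub_self, Ap, map_one, mul_one, ex_lt (Nat.lt_succ_self i)]
    rfl
  rw [h2, h3, h3]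
  ring

lemma ev_cont (i : ℕ) : Continuous (ev i) := by
  have h1 : Continuous fun z : Fin i → ℝ => ex i z := by
    refine continuous_pi fun j => ?_
    unfold ex
    by_cases h : j < i
    · simp only [dif_pos h]
      exact continuous_apply _
    · simp only [dif_neg h]
      exact continuous_const
  exact (MvPolynomial.continuous_eval (Ap i)).comp h1

instance (i : ℕ) : IsProbabilityMeasure (Gm i) := by
  unfold Gm
  infer_instance

theorem t_ATOM : S_ATOM := by
  intro i t hi
  obtain ⟨i, rfl⟩ : ∃ k, i = k + 1 := ⟨i - 1, by omega⟩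
  let μ : Fin (i + 1) → Measure ℝ :=
    fun j => gaussianReal (et ((j : ℕ) + 1)) (((j : ℕ) : ℝ≥0) + 1)
  let e := MeasurableEquiv.piFinSuccAbove (fun _ : Fin (i + 1) => ℝ) (Fin.last i)
  have hmp := measurePreserving_piFinSuccAbove μ (Fin.last i)
  let S : Set (ℝ × (Fin i → ℝ)) := {w | ev (i + 1) (e.symm w) = t}
  have hS : MeasurableSet S :=
    ((ev_cont (i + 1)).measurable.comp e.symm.measurable) (measurableSet_singleton t)
  have h1 : Gm (i + 1) {z | ev (i + 1) z = t} = Gm (i + 1) (e ⁻¹' S) := by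
    congr 1
    ext z
    change _ ↔ ev (i + 1) (e.symm (e z)) = t
    rw [MeasurableEquiv.symm_apply_apply]
    rfl
  rw [h1]
  have h2 := hmp.measure_preimage hS.nullMeasurableSet
  change (Measure.pi μ) (e ⁻¹' S) = 0
  refine h2.trans ?_
  rw [Measure.prod_apply_symm hS]
  rw [lintegral_eq_zero_iff' (by
    exact (measurable_measure_prodMk_right hS).aemeasurable)]
  refine Eventually.of_forall fun w => ?_
  change (μ (Fin.last i)) ((fun x => (x, w)) ⁻¹' S) = 0
  have h3 : ((fun x => (x, w)) ⁻¹' S).Subsingleton := by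
    intro x hx y hy
    have hx' : ev (i + 1) (e.symm (x, w)) = t := hx
    have hy' : ev (i + 1) (e.symm (y, w)) = t := hy
    have e1 : ∀ x : ℝ, e.symm (x, w) = Fin.insertNth (Fin.last i) x w := fun x => rfl
    have h4 := ev_last i (e.symm (x, w)) (e.symm (y, w)) (fun j => by
      rw [e1, e1, ← Fin.succAbove_last]
      rw [Fin.insertNth_apply_succAbove, Fin.insertNth_apply_succAbove])
    rw [hx', hy', sub_self, e1, e1, Fin.insertNth_apply_same, Fin.insertNth_apply_same] at h4
    have h5 : (1 / ((i : ℝ) + 1)) ≠ 0 := by positivity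
    have h6 : x - y = 0 := by
      rcases mul_eq_zero.1 h4.symm with h | h
      · exact absurd h h5
      · exact h
    exact sub_eq_zero.1 h6
  have h4 : (((Fin.last i : Fin (i + 1)) : ℕ) : ℝ≥0) + 1 ≠ 0 := by positivity
  exact (gaussianReal_absolutelyContinuous _ h4) (h3.measure_zero _)

theorem t_CDF (hA : S_ATOM) : S_CDF := by
  intro i hi
  let ν : Measure ℝ := (Gm i).map (ev i)
  have hν : IsProbabilityMeasure ν :=
    Measure.isProbabilityMeasure_map (ev_cont i).measurable.aemeasurable
  have h1 : (fun t : ℝ => (Gm i).real {z | ev i z ≤ t}) = fun t => cdf ν t := by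
    funext t
    rw [cdf_eq_real, map_measureReal_apply (ev_cont i).measurable measurableSet_Iic]
    rfl
  rw [h1]
  refine ⟨monotone_cdf ν, ?_, tendsto_cdf_atBot ν, tendsto_cdf_atTop ν⟩
  rw [continuous_iff_continuousAt]
  intro t
  refine (monotone_cdf ν).continuousAt_iff_leftLim_eq_rightLim.2 ?_
  rw [(cdf ν).rightLim_eq]
  have h2 : ν {t} = 0 := by
    rw [Measure.map_apply (ev_cont i).measurable (measurableSet_singleton t)]
    exact hA i t hi
  have h3 := (cdf ν).measure_singleton t
  rw [measure_cdf, h2] at h3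
  have h4 := ENNReal.ofReal_eq_zero.1 h3.symm
  have h5 := (monotone_cdf ν).leftLim_le (le_refl t)
  linarith

end Pool.Agent.NH22.ST.E5
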