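import Pool.Agent.NH22.ST.Stm2

/-!
# Project US-26: Levy's theorem and portmanteau
-/

set_option autoImplicit false

namespace Pool.Agent.NH22.ST.E6

open Finset MeasureTheory ProbabilityTheory Filter Topology NNReal
open scoped ENNReal RealInnerProductSpace

section emp
variable {E : Type*} [MeasurableSpace E]

/-- the empirical measure -/
noncomputable def emp (s : Finset ℕ) (y : ℕ → E) : Measure E :=
  ((s.card : ℝ≥0∞)⁻¹) • ∑ n ∈ s, Measure.dirac (y n)

theorem card_ne (s : Finset ℕ) (hs : s.Nonempty) : (s.card : ℝ≥0∞) ≠ 0 := by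
  exact_mod_cast (Finset.card_pos.mpr hs).ne'

theorem emp_prob (s : Finset ℕ) (y : ℕ → E) (hs : s.Nonempty) : IsProbabilityMeasure (emp s y) := by
  constructor
  simp only [emp, Measure.smul_apply, smul_eq_mul, Measure.finsetSum_apply]
  rw [Finset.sum_congr rfl (fun n _ => (measure_univ : Measure.dirac (y n) Set.univ = 1))]
  rw [Finset.sum_const, nsmul_eq_mul, mul_one]
  exact ENNReal.inv_mul_cancel (card_ne s hs) (ENNReal.natCast_ne_top _)

open Classical in
theorem emp_apply (s : Finset ℕ) (y : ℕ → E) {A : Set E} (hA : MeasurableSet A) :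
    emp s y A = ((s.card : ℝ≥0∞)⁻¹) * ((s.filter (fun n => y n ∈ A)).card : ℝ≥0∞) := by
  simp only [emp, Measure.smul_apply, smul_eq_mul, Measure.finsetSum_apply]
  congr 1
  rw [Finset.card_filter, Nat.cast_sum]
  refine Finset.sum_congr rfl (fun n _ => ?_)
  rw [Measure.dirac_apply' _ hA]
  by_cases h : y n ∈ A
  · simp [h]
  · simp [h]

theorem emp_integral [MeasurableSingletonClass E] (s : Finset ℕ) (y : ℕ → E) (f : E → ℂ) :
    ∫ z, f z ∂(emp s y) = (∑ n ∈ s, f (y n)) / (s.card : ℂ) := by
  unfold emp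
  rw [integral_smul_measure, integral_finsetSum_measure]
  · simp only [integral_dirac]
    rw [ENNReal.toReal_inv, ENNReal.toReal_natCast, div_eq_inv_mul, Complex.real_smul]
    push_cast
    rfl
  · intro n _
    exact integrable_dirac (by simp)

end emp

/-- the value is continuous -/
theorem ev_cont (i : ℕ) : Continuous (ev i) := by
  unfold ev
  refine (MvPolynomial.continuous_eval _).comp ?_
  refine continuous_pi (fun j => ?_)
  by_cases h : j < i
  · simp only [h, dif_pos]
    exact continuous_apply _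
  · simp only [h, dif_neg, not_false_iff]
    exact continuous_const

theorem gm_prob (i : ℕ) : IsProbabilityMeasure (Gm i) := by
  unfold Gm
  infer_instance

/-- the set in the Euclidean space -/
def AS (i : ℕ) (t : ℝ) : Set (EuclideanSpace ℝ (Fin i)) := {z | ev i (WithLp.ofLp z) ≤ t}

theorem AS_closed (i : ℕ) (t : ℝ) : IsClosed (AS i t) :=
  isClosed_le ((ev_cont i).comp (PiLp.continuous_ofLp 2 _)) continuous_const

theorem AS_frontier (i : ℕ) (t : ℝ) : frontier (AS i t) ⊆ {z | ev i (WithLp.ofLp z) = t} :=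
  frontier_le_subset_eq ((ev_cont i).comp (PiLp.continuous_ofLp 2 _)) continuous_const

theorem t_SEQ (hC : S_GCHAR) (hA : S_ATOM) : S_SEQ := by
  intro i s x hi hs hM t
  have := gm_prob i
  have hmeas : Measurable (WithLp.toLp 2 : (Fin i → ℝ) → EuclideanSpace ℝ (Fin i)) :=
    (PiLp.continuous_toLp 2 _).measurable
  let μs : ℕ → ProbabilityMeasure (EuclideanSpace ℝ (Fin i)) := fun m =>
    ⟨emp (s m) (fun n => WithLp.toLp 2 (x m n)), emp_prob _ _ (hs m)⟩
  let μ : ProbabilityMeasure (EuclideanSpace ℝ (Fin i)) :=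
    ⟨(Gm i).map (WithLp.toLp 2), Measure.isProbabilityMeasure_map hmeas.aemeasurable⟩
  have hlim : Tendsto μs atTop (𝓝 μ) := by
    apply ProbabilityMeasure.tendsto_of_tendsto_charFun
    intro ξ
    have h1 := hC i s x hs hM (WithLp.ofLp ξ)
    have e1 : ∀ m, charFun ((μs m : Measure (EuclideanSpace ℝ (Fin i)))) ξ =
        (∑ n ∈ s m, Complex.exp (((∑ j, (WithLp.ofLp ξ) j * x m n j : ℝ) : ℂ) * Complex.I)) / ((s m).card : ℂ) := by
      intro m
      rw [charFun_apply]
      change ∫ z, _ ∂(emp (s m) (fun n => WithLp.toLp 2 (x m n))) = _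
      rw [emp_integral]
      congr 1
    have e2 : charFun ((μ : Measure (EuclideanSpace ℝ (Fin i)))) ξ =
        ∫ z, Complex.exp (((∑ j, (WithLp.ofLp ξ) j * z j : ℝ) : ℂ) * Complex.I) ∂(Gm i) := by
      rw [charFun_apply]
      change ∫ z, _ ∂((Gm i).map (WithLp.toLp 2)) = _
      rw [integral_map hmeas.aemeasurable]
      · refine integral_congr_ae (Filter.Eventually.of_forall (fun z => ?_))
        simp only
        rw [PiLp.inner_apply]
        congr 3
      · fun_prop
    rw [e2]
    exact (tendsto_congr e1).mpr h1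
  have hnull : (μ : Measure (EuclideanSpace ℝ (Fin i))) (frontier (AS i t)) = 0 := by
    refine measure_mono_null (AS_frontier i t) ?_
    change ((Gm i).map (WithLp.toLp 2)) _ = 0
    rw [Measure.map_apply hmeas]
    · exact hA i t hi
    · exact (isClosed_eq ((ev_cont i).comp (PiLp.continuous_ofLp 2 _)) continuous_const).measurableSet
  have h2 := ProbabilityMeasure.tendsto_measure_of_null_frontier_of_tendsto' hlim hnull
  have h3 := (ENNReal.tendsto_toReal (measure_ne_top (μ : Measure (EuclideanSpace ℝ (Fin i))) (AS i t))).comp h2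
  have e3 : ((μ : Measure (EuclideanSpace ℝ (Fin i))) (AS i t)).toReal = (Gm i).real {z | ev i z ≤ t} := by
    change (((Gm i).map (WithLp.toLp 2)) (AS i t)).toReal = _
    rw [Measure.map_apply hmeas (AS_closed i t).measurableSet]
    rfl
  rw [e3] at h3
  refine (tendsto_congr (fun m => ?_)).mpr h3
  change _ = (emp (s m) (fun n => WithLp.toLp 2 (x m n)) (AS i t)).toReal
  rw [emp_apply _ _ (AS_closed i t).measurableSet, ENNReal.toReal_mul, ENNReal.toReal_inv,
    ENNReal.toReal_natCast, ENNReal.toReal_natCast, div_eq_inv_mul]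
  congr 2

end Pool.Agent.NH22.ST.E6
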