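import Pool.Agent.NH22.ST.Stm2

/-!
# Project US-27: Polya's theorem and the method of moments, uniform version
-/

set_option autoImplicit false

namespace Pool.Agent.NH22.ST.E7

open Finset MeasureTheory ProbabilityTheory Filter Topology NNReal

theorem t_POLYA : S_POLYA := by
  intro F G hF hF01 hGm hGc hG0 hG1 hFG ε hε
  obtain ⟨N, hN⟩ := exists_nat_gt (2 / ε)
  have hN0 : (0 : ℝ) < N := lt_trans (by positivity) hN
  have hN1 : 1 / (N : ℝ) ≤ ε / 2 := by
    rw [div_le_div_iff₀ hN0 (by norm_num)]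
    rw [div_lt_iff₀ hε] at hN
    linarith
  have hG01 : ∀ t, 0 ≤ G t ∧ G t ≤ 1 := fun t =>
    ⟨ge_of_tendsto' (hFG t) (fun m => (hF01 m t).1), le_of_tendsto' (hFG t) (fun m => (hF01 m t).2)⟩
  have hex : ∀ c : ℝ, 0 < c → c < 1 → ∃ t, G t = c := by
    intro c h0 h1
    have h2 : ∃ a, G a ≤ c := ((hG0.eventually (eventually_lt_nhds h0)).exists).imp (fun _ h => le_of_lt h)
    have h3 : ∃ b, c ≤ G b := ((hG1.eventually (eventually_gt_nhds h1)).exists).imp (fun _ h => le_of_lt h)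
    exact mem_range_of_exists_le_of_exists_ge hGc h2 h3
  have hex' : ∀ j : ℕ, ∃ t, j ∈ Finset.Ico 1 N → G t = j / N := by
    intro j
    by_cases hj : j ∈ Finset.Ico 1 N
    · rw [Finset.mem_Ico] at hj
      obtain ⟨t, ht⟩ := hex (j / N) (div_pos (by exact_mod_cast hj.1) hN0)
        (by rw [div_lt_one hN0]; exact_mod_cast hj.2)
      exact ⟨t, fun _ => ht⟩
    · exact ⟨0, fun h => absurd h hj⟩
  choose u hu using hex'
  have hev : ∀ᶠ m in atTop, ∀ j ∈ Finset.Ico 1 N, |F m (u j) - G (u j)| ≤ ε / 2 := by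
    rw [Filter.eventually_all_finset]
    intro j _
    have h1 := (hFG (u j))
    rw [Metric.tendsto_atTop] at h1
    obtain ⟨M, hM⟩ := h1 (ε / 2) (by positivity)
    filter_upwards [eventually_ge_atTop M] with m hm
    have := hM m hm
    rw [Real.dist_eq] at this
    exact this.le
  filter_upwards [hev] with m hm t
  rw [abs_le]
  constructor
  · -- lower bound
    by_cases h1 : G t ≤ 1 / N
    · linarith [(hF01 m t).1]
    · rw [not_le] at h1
      have hNG : 1 < N * G t := by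
        rw [div_lt_iff₀ hN0] at h1
        linarith
      have hc1 : 1 < ⌈(N : ℝ) * G t⌉₊ := Nat.lt_ceil.mpr (by exact_mod_cast hNG)
      have hc2 : ((⌈(N : ℝ) * G t⌉₊ : ℕ) : ℝ) < N * G t + 1 := Nat.ceil_lt_add_one (by linarith)
      have hc3 : (N : ℝ) * G t ≤ ((⌈(N : ℝ) * G t⌉₊ : ℕ) : ℝ) := Nat.le_ceil _
      have hc4 : ⌈(N : ℝ) * G t⌉₊ ≤ N := Nat.ceil_le.mpr (by nlinarith [(hG01 t).2])
      obtain ⟨j, hj⟩ : ∃ j : ℕ, ⌈(N : ℝ) * G t⌉₊ = j + 1 := ⟨_, (Nat.succ_pred_eq_of_pos (by omega)).symm⟩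
      rw [hj] at hc1 hc2 hc3 hc4
      push_cast at hc2 hc3
      have hjm : j ∈ Finset.Ico 1 N := by
        rw [Finset.mem_Ico]
        omega
      have hGu := hu j hjm
      have hlt : G (u j) < G t := by
        rw [hGu, div_lt_iff₀ hN0]
        linarith
      have hut : u j ≤ t := by
        by_contra hcon
        rw [not_le] at hcon
        exact absurd (hGm hcon.le) (not_le.mpr hlt)
      have h3 := (abs_le.mp (hm j hjm)).1
      have h4 := hF m hut
      have h5 : G t ≤ G (u j) + 1 / N := by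
        rw [hGu, ← add_div, le_div_iff₀ hN0]
        linarith
      linarith
  · -- upper bound
    by_cases h1 : 1 - 1 / N ≤ G t
    · linarith [(hF01 m t).2]
    · rw [not_le] at h1
      have hNG : N * G t < N - 1 := by
        have : N * G t < N * (1 - 1 / N) := by
          exact mul_lt_mul_of_pos_left h1 hN0
        have h2 : (N : ℝ) * (1 - 1 / N) = N - 1 := by
          field_simp
        linarith
      have hnn : 0 ≤ N * G t := mul_nonneg hN0.le (hG01 t).1
      have hc1 : ((⌊(N : ℝ) * G t⌋₊ : ℕ) : ℝ) ≤ N * G t := Nat.floor_le hnn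
      have hc2 : N * G t < ((⌊(N : ℝ) * G t⌋₊ : ℕ) : ℝ) + 1 := Nat.lt_floor_add_one _
      have hjm : ⌊(N : ℝ) * G t⌋₊ + 1 ∈ Finset.Ico 1 N := by
        rw [Finset.mem_Ico]
        refine ⟨by omega, ?_⟩
        have : ((⌊(N : ℝ) * G t⌋₊ + 1 : ℕ) : ℝ) < (N : ℝ) := by
          push_cast
          linarith
        exact_mod_cast this
      have hGu := hu _ hjm
      push_cast at hGu
      have hlt : G t < G (u (⌊(N : ℝ) * G t⌋₊ + 1)) := by
        rw [hGu, lt_div_iff₀ hN0]
        linarith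
      have hut : t ≤ u (⌊(N : ℝ) * G t⌋₊ + 1) := by
        by_contra hcon
        rw [not_le] at hcon
        exact absurd (hGm hcon.le) (not_le.mpr hlt)
      have h3 := (abs_le.mp (hm _ hjm)).2
      have h4 := hF m hut
      have h5 : G (u (⌊(N : ℝ) * G t⌋₊ + 1)) ≤ G t + 1 / N := by
        rw [hGu, div_le_iff₀ hN0, add_mul, one_div, inv_mul_cancel₀ hN0.ne']
        linarith
      linarith

theorem t_M (hS : S_SEQ) (hC : S_CDF) (hP : S_POLYA) : S_M := by
  intro i hi ε hε
  by_contra hcon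
  push Not at hcon
  have hcon' : ∀ m : ℕ, ∃ (s : Finset ℕ) (x : ℕ → Fin i → ℝ), s.Nonempty ∧
    (∀ e : Fin i → ℕ, ∑ j : Fin i, ((j : ℕ) + 1) * e j ≤ m →
      |(∑ n ∈ s, ∏ j, x n j ^ e j) / (s.card : ℝ) - ∏ j : Fin i, MM ((j : ℕ) + 1) (e j)| ≤ 1 / ((m : ℝ) + 1)) ∧
    ∃ t : ℝ, ε < |((s.filter (fun n => ev i (x n) ≤ t)).card : ℝ) / (s.card : ℝ) - (Gm i).real {z | ev i z ≤ t}| :=
    fun m => hcon m (1 / ((m : ℝ) + 1)) (by positivity)
  choose s x hs hmom t ht using hcon'
  have hM : MomConv i s x := by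
    intro e
    rw [Metric.tendsto_atTop]
    intro δ hδ
    obtain ⟨M, hM⟩ := exists_nat_gt (1 / δ)
    refine ⟨max M (∑ j : Fin i, ((j : ℕ) + 1) * e j), fun m hm => ?_⟩
    rw [Real.dist_eq]
    refine lt_of_le_of_lt (hmom m e (le_trans (le_max_right _ _) hm)) ?_
    have h1 : (M : ℝ) ≤ m := by exact_mod_cast le_trans (le_max_left _ _) hm
    rw [div_lt_iff₀ (by positivity)]
    rw [div_lt_iff₀ hδ] at hM
    nlinarith
  obtain ⟨hmono, hcont, hbot, htop⟩ := hC i hi
  have hres := hP (fun m t => (((s m).filter (fun n => ev i (x m n) ≤ t)).card : ℝ) / ((s m).card : ℝ)) _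
    (by
      intro m a b hab
      refine div_le_div_of_nonneg_right ?_ (Nat.cast_nonneg _)
      have : ((s m).filter (fun n => ev i (x m n) ≤ a)) ⊆ ((s m).filter (fun n => ev i (x m n) ≤ b)) := by
        intro n hn
        rw [Finset.mem_filter] at hn ⊢
        exact ⟨hn.1, hn.2.trans hab⟩
      exact_mod_cast Finset.card_le_card this)
    (by
      intro m a
      refine ⟨by positivity, ?_⟩
      refine div_le_one_of_le₀ ?_ (Nat.cast_nonneg _)
      exact_mod_cast Finset.card_filter_le _ _) hmono hcont hbot htop (hS i s x hi hs hM) ε hε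
  obtain ⟨m, hm⟩ := hres.exists
  exact absurd (hm (t m)) (not_le.mpr (ht m))

end Pool.Agent.NH22.ST.E7
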