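import Pool.Agent.NH22.ST.Stm2
import Pool.Agent.NH21.Bty.EssC

/-!
# Project US, US-28: the distribution function from the moments, quantitative version
-/

set_option autoImplicit false

namespace Pool.Agent.NH22.ST.E8

open Finset MeasureTheory ProbabilityTheory Filter Topology NNReal

/-- the Taylor remainder of `exp (i y)` -/
noncomputable def EE (n : ℕ) (y : ℝ) : ℂ :=
  Complex.exp ((y : ℂ) * Complex.I) - ∑ k ∈ range n, ((y : ℂ) * Complex.I) ^ k / (k.factorial : ℂ)

theorem EE_deriv (n : ℕ) (x t : ℝ) :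
    HasDerivAt (fun t : ℝ => EE (n + 1) (t * x)) (((x : ℂ) * Complex.I) * EE n (t * x)) t := by
  have h1 : HasDerivAt (fun t : ℝ => (((t * x : ℝ) : ℂ) * Complex.I)) ((x : ℂ) * Complex.I) t := by
    have h2 : HasDerivAt (fun t : ℝ => ((t * x : ℝ) : ℂ)) (x : ℂ) t := by
      have h3 : HasDerivAt (fun t : ℝ => t * x) x t := by
        simpa using (hasDerivAt_id t).mul_const x
      exact h3.ofReal_comp
    exact h2.mul_const _
  have h4 := h1.cexp
  have h5 : HasDerivAt (fun t : ℝ => ∑ k ∈ range (n + 1), (((t * x : ℝ) : ℂ) * Complex.I) ^ k / (k.factorial : ℂ))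
      (∑ k ∈ range (n + 1), (k : ℂ) * (((t * x : ℝ) : ℂ) * Complex.I) ^ (k - 1) * ((x : ℂ) * Complex.I) / (k.factorial : ℂ)) t := by
    apply HasDerivAt.fun_sum
    intro k _
    exact (h1.pow k).div_const _
  have h6 := h4.sub h5
  unfold EE
  refine h6.congr_deriv ?_
  rw [Finset.sum_range_succ']
  have h7 : ∀ k ∈ range n, ((k + 1 : ℕ) : ℂ) * (((t * x : ℝ) : ℂ) * Complex.I) ^ (k + 1 - 1) * ((x : ℂ) * Complex.I) / ((k + 1).factorial : ℂ) =
      ((x : ℂ) * Complex.I) * ((((t * x : ℝ) : ℂ) * Complex.I) ^ k / (k.factorial : ℂ)) := by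
    intro k _
    have hk : ((k.factorial : ℕ) : ℂ) ≠ 0 := by exact_mod_cast k.factorial_ne_zero
    have hk2 : ((k : ℂ) + 1) ≠ 0 := by exact_mod_cast k.succ_ne_zero
    rw [Nat.factorial_succ, Nat.add_sub_cancel]
    push_cast
    field_simp
  rw [Finset.sum_congr rfl h7, ← Finset.mul_sum]
  simp
  ring

theorem EE_le (n : ℕ) : ∀ y : ℝ, ‖EE n y‖ ≤ |y| ^ n / (n.factorial : ℝ) := by
  induction n with
  | zero =>
    intro y
    simp [EE, Complex.norm_exp_ofReal_mul_I]
  | succ n ih =>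
    intro x
    have hd := EE_deriv n x
    have hB : ∀ t : ℝ, HasDerivAt (fun t : ℝ => |x| ^ (n + 1) * t ^ (n + 1) / ((n + 1).factorial : ℝ))
        (|x| ^ (n + 1) * t ^ n / (n.factorial : ℝ)) t := by
      intro t
      have h1 := ((hasDerivAt_pow (n + 1) t).const_mul (|x| ^ (n + 1))).div_const ((n + 1).factorial : ℝ)
      refine h1.congr_deriv ?_
      have hk : ((n.factorial : ℕ) : ℝ) ≠ 0 := by exact_mod_cast n.factorial_ne_zero
      have hk2 : ((n : ℝ) + 1) ≠ 0 := by exact_mod_cast n.succ_ne_zero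
      rw [Nat.factorial_succ, Nat.add_sub_cancel]
      push_cast
      field_simp
    have h := image_norm_le_of_norm_deriv_right_le_deriv_boundary (a := 0) (b := 1)
      (f := fun t : ℝ => EE (n + 1) (t * x)) (f' := fun t => ((x : ℂ) * Complex.I) * EE n (t * x))
      (fun t _ => (hd t).continuousAt.continuousWithinAt) (fun t _ => (hd t).hasDerivWithinAt)
      (B := fun t : ℝ => |x| ^ (n + 1) * t ^ (n + 1) / ((n + 1).factorial : ℝ))
      (B' := fun t : ℝ => |x| ^ (n + 1) * t ^ n / (n.factorial : ℝ)) ?_ hB ?_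
    · have h2 := h (x := 1) (by constructor <;> norm_num)
      simpa using h2
    · have : EE (n + 1) (0 * x) = 0 := by
        unfold EE
        rw [Finset.sum_range_succ']
        simp
      rw [this]
      simp
    · intro t ht
      rw [norm_mul, norm_mul, Complex.norm_I, mul_one, Complex.norm_real, Real.norm_eq_abs]
      have h3 := ih (t * x)
      rw [abs_mul, abs_of_nonneg ht.1] at h3
      calc |x| * ‖EE n (t * x)‖ ≤ |x| * ((t * |x|) ^ n / (n.factorial : ℝ)) :=
            mul_le_mul_of_nonneg_left h3 (abs_nonneg _)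
        _ = |x| ^ (n + 1) * t ^ n / (n.factorial : ℝ) := by
            rw [mul_pow, pow_succ]; ring

theorem EE_le2 (g : ℕ) (t y : ℝ) : ‖EE (2 * g) (t * y)‖ ≤ t ^ (2 * g) / ((2 * g).factorial : ℝ) * y ^ (2 * g) := by
  have h := EE_le (2 * g) (t * y)
  have h2 : |t * y| ^ (2 * g) = t ^ (2 * g) * y ^ (2 * g) := by
    rw [pow_mul, sq_abs, ← pow_mul, mul_pow]
  rw [h2] at h
  calc _ ≤ _ := h
    _ = _ := by ring

theorem MM_even (g : ℕ) : MM 1 (2 * g) = ((2 * g).factorial : ℝ) / (2 ^ g * (g.factorial : ℝ)) := by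
  induction g with
  | zero => simp [MM]
  | succ g ih =>
    have h1 : MM 1 (2 * (g + 1)) = ((2 * g : ℕ) + 1 : ℝ) * MM 1 (2 * g) := by
      show MM 1 (2 * g + 2) = _
      rw [MM]
      simp
    rw [h1, ih]
    have h2 : 2 * (g + 1) = 2 * g + 1 + 1 := by ring
    rw [h2, Nat.factorial_succ (2 * g + 1), Nat.factorial_succ (2 * g), Nat.factorial_succ g]
    have hk : ((g.factorial : ℕ) : ℝ) ≠ 0 := by exact_mod_cast g.factorial_ne_zero
    have hk2 : ((g : ℝ) + 1) ≠ 0 := by exact_mod_cast g.succ_ne_zero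
    push_cast
    field_simp
    ring

theorem reindex (s : Finset ℕ) : ∃ f : ℕ → ℕ, Set.InjOn f (Icc 1 s.card : Finset ℕ) ∧
    (Icc 1 s.card).image f = s := by
  classical
  have hc : (Icc 1 s.card).card = s.card := by simp
  let e := Finset.equivOfCardEq hc
  refine ⟨fun n => if h : n ∈ Icc 1 s.card then (e ⟨n, h⟩ : ℕ) else 0, ?_, ?_⟩
  · intro x hx y hy hxy
    have hx' : x ∈ Icc 1 s.card := hx
    have hy' : y ∈ Icc 1 s.card := hy
    simp only [hx', hy', dif_pos] at hxy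
    have := e.injective (Subtype.ext hxy)
    simpa using this
  · ext z
    rw [Finset.mem_image]
    constructor
    · rintro ⟨n, hn, rfl⟩
      simp only [hn, dif_pos]
      exact (e ⟨n, hn⟩).2
    · intro hz
      refine ⟨(e.symm ⟨z, hz⟩ : ℕ), (e.symm ⟨z, hz⟩).2, ?_⟩
      simp

/-- the characteristic functions -/
theorem char_bound (hG : S_GM) (g : ℕ) (hg1 : 0 < g) (s : Finset ℕ) (a : ℕ → ℝ) (η : ℝ) (hs : s.Nonempty)
    (hη : 0 ≤ η) (h : ∀ k ≤ 2 * g, |(∑ n ∈ s, a n ^ k) / (s.card : ℝ) - MM 1 k| ≤ η) (t : ℝ) (ht : 0 ≤ t) :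
    ‖(1 / (s.card : ℂ)) * ∑ n ∈ s, Complex.exp (t * (a n : ℂ) * Complex.I) - Complex.exp (-((t : ℂ) ^ 2 / 2))‖ ≤
      η * (t * Real.exp t) + 2 * t ^ (2 * g) / (2 ^ g * (g.factorial : ℝ)) := by
  have hN : (0 : ℝ) < s.card := by exact_mod_cast hs.card_pos
  have hNc : (s.card : ℂ) ≠ 0 := by exact_mod_cast hs.card_pos.ne'
  set N : ℕ := s.card with hNdef
  set F : ℝ := ((2 * g).factorial : ℝ) with hF
  have hFpos : 0 < F := by rw [hF]; exact_mod_cast (2 * g).factorial_pos
  set m : ℕ → ℝ := fun k => (∑ n ∈ s, a n ^ k) / (N : ℝ) with hm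
  -- the moments of the normal law
  have hint : ∀ k : ℕ, Integrable (fun x : ℝ => x ^ k) (gaussianReal 0 1) ∧
      ∫ x, x ^ k ∂(gaussianReal 0 1) = MM 1 k := by
    intro k
    have h1 := hG 1 one_pos k
    simpa [et] using h1
  -- first part
  have hA : ‖(1 / (N : ℂ)) * ∑ n ∈ s, Complex.exp (t * (a n : ℂ) * Complex.I) -
      ∑ k ∈ range (2 * g), ((t : ℂ) * Complex.I) ^ k / (k.factorial : ℂ) * (m k : ℂ)‖ ≤
      t ^ (2 * g) / F * m (2 * g) := by
    have e1 : (1 / (N : ℂ)) * ∑ n ∈ s, Complex.exp (t * (a n : ℂ) * Complex.I) -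
        ∑ k ∈ range (2 * g), ((t : ℂ) * Complex.I) ^ k / (k.factorial : ℂ) * (m k : ℂ) =
        (1 / (N : ℂ)) * ∑ n ∈ s, EE (2 * g) (t * a n) := by
      unfold EE
      rw [Finset.sum_sub_distrib, mul_sub]
      congr 1
      · congr 1
        refine Finset.sum_congr rfl fun n _ => ?_
        push_cast
        rfl
      · rw [Finset.sum_comm, Finset.mul_sum]
        refine Finset.sum_congr rfl fun k _ => ?_
        rw [hm]
        push_cast
        rw [Finset.sum_div, Finset.mul_sum, Finset.mul_sum]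
        refine Finset.sum_congr rfl fun n _ => ?_
        rw [mul_pow, mul_pow, mul_pow]
        ring
    rw [e1, norm_mul]
    have e2 : ‖(1 / (N : ℂ))‖ = 1 / (N : ℝ) := by simp
    rw [e2]
    calc 1 / (N : ℝ) * ‖∑ n ∈ s, EE (2 * g) (t * a n)‖
        ≤ 1 / (N : ℝ) * ∑ n ∈ s, t ^ (2 * g) / F * a n ^ (2 * g) := by
          refine mul_le_mul_of_nonneg_left ?_ (by positivity)
          exact (norm_sum_le _ _).trans (Finset.sum_le_sum fun n _ => EE_le2 g t (a n))
      _ = t ^ (2 * g) / F * m (2 * g) := by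
          rw [hm, ← Finset.mul_sum]
          ring
  -- second part
  have hcI : ∀ k : ℕ, Integrable (fun z : ℝ => ((t : ℂ) * Complex.I) ^ k / (k.factorial : ℂ) * ((z ^ k : ℝ) : ℂ)) (gaussianReal 0 1) := by
    intro k
    exact ((hint k).1.ofReal).const_mul _
  have hexpI : Integrable (fun z : ℝ => Complex.exp (((t * z : ℝ) : ℂ) * Complex.I)) (gaussianReal 0 1) := by
    refine Integrable.of_bound (C := 1) ?_ (Eventually.of_forall fun z => ?_)
    · exact (Continuous.aestronglyMeasurable (by fun_prop))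
    · rw [Complex.norm_exp_ofReal_mul_I]
  have hEEeq : ∀ z : ℝ, EE (2 * g) (t * z) = Complex.exp (((t * z : ℝ) : ℂ) * Complex.I) -
      ∑ k ∈ range (2 * g), ((t : ℂ) * Complex.I) ^ k / (k.factorial : ℂ) * ((z ^ k : ℝ) : ℂ) := by
    intro z
    unfold EE
    congr 1
    refine Finset.sum_congr rfl fun k _ => ?_
    push_cast
    rw [mul_pow, mul_pow, mul_pow]
    ring
  have hB : ‖Complex.exp (-((t : ℂ) ^ 2 / 2)) -
      ∑ k ∈ range (2 * g), ((t : ℂ) * Complex.I) ^ k / (k.factorial : ℂ) * (MM 1 k : ℂ)‖ ≤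
      t ^ (2 * g) / F * MM 1 (2 * g) := by
    have e1 : Complex.exp (-((t : ℂ) ^ 2 / 2)) = ∫ z : ℝ, Complex.exp (((t * z : ℝ) : ℂ) * Complex.I) ∂(gaussianReal 0 1) := by
      have h1 := charFun_gaussianReal (μ := 0) (v := 1) t
      rw [charFun_apply_real] at h1
      have h2 : Complex.exp ((t : ℂ) * ((0 : ℝ) : ℂ) * Complex.I - (((1 : ℝ≥0) : ℝ) : ℂ) * (t : ℂ) ^ 2 / 2) =
          Complex.exp (-((t : ℂ) ^ 2 / 2)) := by
        congr 1
        push_cast
        ring
      rw [← h2, ← h1]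
      congr 1
      funext z
      push_cast
      rfl
    have e2 : ∑ k ∈ range (2 * g), ((t : ℂ) * Complex.I) ^ k / (k.factorial : ℂ) * (MM 1 k : ℂ) =
        ∫ z : ℝ, ∑ k ∈ range (2 * g), ((t : ℂ) * Complex.I) ^ k / (k.factorial : ℂ) * ((z ^ k : ℝ) : ℂ) ∂(gaussianReal 0 1) := by
      rw [integral_finsetSum _ fun k _ => hcI k]
      refine Finset.sum_congr rfl fun k _ => ?_
      rw [integral_const_mul]
      congr 1
      rw [← (hint k).2]
      exact (integral_ofReal).symm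
    rw [e1, e2, ← integral_sub hexpI (integrable_finsetSum _ fun k _ => hcI k)]
    have e3 : ∫ z : ℝ, (Complex.exp (((t * z : ℝ) : ℂ) * Complex.I) -
        ∑ k ∈ range (2 * g), ((t : ℂ) * Complex.I) ^ k / (k.factorial : ℂ) * ((z ^ k : ℝ) : ℂ)) ∂(gaussianReal 0 1) =
        ∫ z : ℝ, EE (2 * g) (t * z) ∂(gaussianReal 0 1) := by
      refine integral_congr_ae (Eventually.of_forall fun z => ?_)
      exact (hEEeq z).symm
    rw [e3]
    calc ‖∫ z : ℝ, EE (2 * g) (t * z) ∂(gaussianReal 0 1)‖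
        ≤ ∫ z : ℝ, t ^ (2 * g) / F * z ^ (2 * g) ∂(gaussianReal 0 1) := by
          refine norm_integral_le_of_norm_le ((hint (2 * g)).1.const_mul _) (Eventually.of_forall fun z => ?_)
          exact EE_le2 g t z
      _ = t ^ (2 * g) / F * MM 1 (2 * g) := by
          rw [integral_const_mul, (hint (2 * g)).2]
  -- the difference of the moments
  have hm0 : m 0 = MM 1 0 := by
    rw [hm]
    simp [MM]
    exact div_self hN.ne'
  have hC : ‖∑ k ∈ range (2 * g), ((t : ℂ) * Complex.I) ^ k / (k.factorial : ℂ) * (m k : ℂ) -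
      ∑ k ∈ range (2 * g), ((t : ℂ) * Complex.I) ^ k / (k.factorial : ℂ) * (MM 1 k : ℂ)‖ ≤
      η * (∑ k ∈ range (2 * g + 1), t ^ k / (k.factorial : ℝ) - 1 - t ^ (2 * g) / F + (if g = 0 then 1 else 0)) := by
    rw [← Finset.sum_sub_distrib]
    rcases Nat.eq_zero_or_pos g with hg | hg
    · subst hg
      simp [hF]
    · rw [if_neg hg.ne', add_zero, Finset.sum_range_succ _ (2 * g)]
      have e1 : η * (∑ k ∈ range (2 * g), t ^ k / (k.factorial : ℝ) + t ^ (2 * g) / F - 1 - t ^ (2 * g) / F) =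
          η * (∑ k ∈ range (2 * g), t ^ k / (k.factorial : ℝ) - 1) := by ring
      rw [e1]
      obtain ⟨r, hr⟩ : ∃ r, 2 * g = r + 1 := ⟨2 * g - 1, by omega⟩
      rw [hr, Finset.sum_range_succ', Finset.sum_range_succ']
      rw [hm0]
      simp only [pow_zero, Nat.factorial_zero, Nat.cast_one, div_one, sub_self, add_zero, add_sub_cancel_right]
      refine (norm_sum_le _ _).trans ?_
      rw [Finset.mul_sum]
      refine Finset.sum_le_sum fun k hk => ?_
      rw [← mul_sub, norm_mul, norm_div, norm_pow, norm_mul, Complex.norm_I, mul_one, Complex.norm_real,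
        Real.norm_eq_abs, abs_of_nonneg ht]
      have h1 : ‖((m (k + 1) : ℝ) : ℂ) - ((MM 1 (k + 1) : ℝ) : ℂ)‖ ≤ η := by
        rw [← Complex.ofReal_sub, Complex.norm_real]
        exact h (k + 1) (by have := Finset.mem_range.mp hk; omega)
      have h2 : ‖(((k + 1).factorial : ℕ) : ℂ)‖ = ((k + 1).factorial : ℝ) := by simp
      rw [h2, mul_comm]
      exact mul_le_mul_of_nonneg_right h1 (by positivity)
  have hm2 : m (2 * g) ≤ MM 1 (2 * g) + η := by
    have := h (2 * g) le_rfl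
    rw [abs_le] at this
    have h1 : m (2 * g) = (∑ n ∈ s, a n ^ (2 * g)) / (N : ℝ) := rfl
    rw [h1]
    linarith [this.2]
  -- the conclusion
  have hexp : ∑ k ∈ range (2 * g + 1), t ^ k / (k.factorial : ℝ) ≤ Real.exp t := Real.sum_le_exp_of_nonneg ht _
  have hexp2 : Real.exp t - 1 ≤ t * Real.exp t := by
    have h1 := Real.add_one_le_exp (-t)
    have h2 : Real.exp (-t) * Real.exp t = 1 := by rw [← Real.exp_add]; simp
    nlinarith [Real.exp_pos t]
  have hMM : t ^ (2 * g) / F * MM 1 (2 * g) = t ^ (2 * g) / (2 ^ g * (g.factorial : ℝ)) := by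
    rw [MM_even, ← hF]
    field_simp
  have htF : 0 ≤ t ^ (2 * g) / F := by positivity
  rcases Nat.eq_zero_or_pos g with hg | hg
  · exact absurd hg hg1.ne'
  · rw [if_neg hg.ne', add_zero] at hC
    have key : ‖(1 / (N : ℂ)) * ∑ n ∈ s, Complex.exp (t * (a n : ℂ) * Complex.I) - Complex.exp (-((t : ℂ) ^ 2 / 2))‖ ≤
        t ^ (2 * g) / F * m (2 * g) +
        η * (∑ k ∈ range (2 * g + 1), t ^ k / (k.factorial : ℝ) - 1 - t ^ (2 * g) / F) +
        t ^ (2 * g) / F * MM 1 (2 * g) := by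
      have e : ∀ A P Q B : ℂ, A - B = (A - P) + (P - Q) - (B - Q) := fun A P Q B => by ring
      rw [e _ (∑ k ∈ range (2 * g), ((t : ℂ) * Complex.I) ^ k / (k.factorial : ℂ) * (m k : ℂ))
        (∑ k ∈ range (2 * g), ((t : ℂ) * Complex.I) ^ k / (k.factorial : ℂ) * (MM 1 k : ℂ))]
      refine (norm_sub_le _ _).trans ?_
      exact add_le_add ((norm_add_le _ _).trans (add_le_add hA hC)) hB
    have h1 : t ^ (2 * g) / F * m (2 * g) ≤ t ^ (2 * g) / F * MM 1 (2 * g) + t ^ (2 * g) / F * η := by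
      rw [← mul_add]
      exact mul_le_mul_of_nonneg_left hm2 htF
    have h2 : η * (∑ k ∈ range (2 * g + 1), t ^ k / (k.factorial : ℝ) - 1 - t ^ (2 * g) / F) ≤
        η * (t * Real.exp t) - t ^ (2 * g) / F * η := by
      have : η * (∑ k ∈ range (2 * g + 1), t ^ k / (k.factorial : ℝ) - 1) ≤ η * (t * Real.exp t) :=
        mul_le_mul_of_nonneg_left (by linarith) hη
      nlinarith
    rw [hMM] at h1 key
    have h3 : 2 * t ^ (2 * g) / (2 ^ g * (g.factorial : ℝ)) = t ^ (2 * g) / (2 ^ g * (g.factorial : ℝ)) + t ^ (2 * g) / (2 ^ g * (g.factorial : ℝ)) := by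
      ring
    rw [h3]
    linarith

theorem pow_fac (g : ℕ) (hg : 0 < g) : (Real.sqrt g / 2) ^ (2 * g) / (2 ^ g * (g.factorial : ℝ)) ≤ 1 := by
  have hk : (0 : ℝ) < (g.factorial : ℝ) := by exact_mod_cast g.factorial_pos
  have h1 : (Real.sqrt g / 2) ^ (2 * g) = ((g : ℝ) / 4) ^ g := by
    rw [pow_mul, div_pow, Real.sq_sqrt (Nat.cast_nonneg g)]
    norm_num
  rw [h1, div_le_one (by positivity)]
  have h2 : (g : ℝ) ^ g / (g.factorial : ℝ) ≤ Real.exp g := Real.pow_div_factorial_le_exp _ (Nat.cast_nonneg g) g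
  have h3 : Real.exp g ≤ 8 ^ g := by
    have h4 : Real.exp g = Real.exp 1 ^ g := by
      rw [← Real.exp_nat_mul]; simp
    rw [h4]
    exact pow_le_pow_left₀ (Real.exp_pos 1).le (by linarith [Real.exp_one_lt_d9]) g
  rw [div_le_iff₀ hk] at h2
  have h5 : (g : ℝ) ^ g ≤ 8 ^ g * (g.factorial : ℝ) := h2.trans (mul_le_mul_of_nonneg_right h3 hk.le)
  rw [div_pow, div_le_iff₀ (by positivity)]
  calc (g : ℝ) ^ g ≤ 8 ^ g * (g.factorial : ℝ) := h5
    _ = 2 ^ g * (g.factorial : ℝ) * 4 ^ g := by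
      have : (8 : ℝ) ^ g = 2 ^ g * 4 ^ g := by rw [← mul_pow]; norm_num
      rw [this]; ring

theorem t_QE (hG : S_GM) : S_QE := by
  obtain ⟨C, hC⟩ := Pool.Agent.NH21.Bty.Esse.ess_main
  refine ⟨3 * (|C| + 1), by positivity, ?_⟩
  intro g s a η hg hs hη h x
  obtain ⟨f, hf1, hf2⟩ := reindex s
  have hN : 1 ≤ s.card := hs.card_pos
  have hg0 : (0 : ℝ) < g := by exact_mod_cast hg
  have hsg : 0 < Real.sqrt g := Real.sqrt_pos.mpr hg0
  have hsg1 : 1 ≤ Real.sqrt g := by
    rw [Real.one_le_sqrt]; exact_mod_cast hg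
  set T : ℝ := Real.sqrt g / 2 with hT
  have hT0 : 0 < T := by positivity
  set G : ℝ := 2 ^ g * (g.factorial : ℝ) with hG2
  have hG0 : 0 < G := by rw [hG2]; have := g.factorial_pos; positivity
  have hb : Continuous (fun t : ℝ => η * Real.exp t + 2 * t ^ (2 * g - 1) / G) := by fun_prop
  have hsum : ∀ t : ℝ, ∑ n ∈ Icc 1 s.card, Complex.exp (t * (a (f n) : ℂ) * Complex.I) =
      ∑ n ∈ s, Complex.exp (t * (a n : ℂ) * Complex.I) := by
    intro t
    conv_rhs => rw [← hf2]
    rw [Finset.sum_image hf1]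
  have hcard : ((Icc 1 s.card).filter (fun n => a (f n) ≤ x)).card = (s.filter (fun n => a n ≤ x)).card := by
    rw [Finset.card_filter, Finset.card_filter]
    conv_rhs => rw [← hf2]
    rw [Finset.sum_image hf1]
  have key := hC s.card hN (fun n => a (f n)) T hT0 (fun t : ℝ => η * Real.exp t + 2 * t ^ (2 * g - 1) / G)
    (hb.intervalIntegrable _ _) (by
      intro t ht
      rw [hsum t]
      refine (char_bound hG g hg s a η hs hη h t ht.1.le).trans (le_of_eq ?_)
      have h1 : t ^ (2 * g) = t * t ^ (2 * g - 1) := by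
        rw [← pow_succ']
        congr 1
        omega
      rw [h1]
      ring) x
  have hDD : Pool.Agent.NH21.Bty.Esse.DD s.card (fun n => a (f n)) x =
      ((s.filter (fun n => a n ≤ x)).card : ℝ) / (s.card : ℝ) - (gaussianReal 0 1).real (Set.Iic x) := by
    unfold Pool.Agent.NH21.Bty.Esse.DD Pool.Agent.NH21.Bty.Esse.FF Pool.Agent.NH21.Bty.Esse.Ph
    rw [hcard]
  rw [hDD] at key
  refine key.trans ?_
  have hI : ∫ t in (0 : ℝ)..T, (η * Real.exp t + 2 * t ^ (2 * g - 1) / G) =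
      η * (Real.exp T - 1) + 2 * (T ^ (2 * g) / (2 * g)) / G := by
    rw [intervalIntegral.integral_add (Continuous.intervalIntegrable (by fun_prop) _ _)
      (Continuous.intervalIntegrable (by fun_prop) _ _)]
    rw [intervalIntegral.integral_const_mul, integral_exp, Real.exp_zero]
    congr 1
    rw [intervalIntegral.integral_div, intervalIntegral.integral_const_mul, integral_pow]
    have h1 : 2 * g - 1 + 1 = 2 * g := by omega
    rw [h1]
    have h2 : (((2 * g - 1 : ℕ) : ℝ) + 1) = 2 * g := by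
      have : ((2 * g - 1 + 1 : ℕ) : ℝ) = ((2 * g : ℕ) : ℝ) := by rw [h1]
      push_cast at this
      exact this
    rw [h2, zero_pow (by omega)]
    simp
  rw [hI]
  have h1 : T ^ (2 * g) / G ≤ 1 := pow_fac g hg
  have h2 : 2 * (T ^ (2 * g) / (2 * g)) / G ≤ 1 / Real.sqrt g := by
    have e1 : 2 * (T ^ (2 * g) / (2 * g)) / G = (T ^ (2 * g) / G) * (1 / g) := by
      field_simp
    rw [e1]
    have e2 : 1 / (g : ℝ) ≤ 1 / Real.sqrt g := by
      apply one_div_le_one_div_of_le hsg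
      nlinarith [Real.mul_self_sqrt hg0.le]
    calc (T ^ (2 * g) / G) * (1 / g) ≤ 1 * (1 / g) := mul_le_mul_of_nonneg_right h1 (by positivity)
      _ = 1 / (g : ℝ) := one_mul _
      _ ≤ _ := e2
  have h3 : η * (Real.exp T - 1) ≤ η * Real.exp (Real.sqrt g) := by
    apply mul_le_mul_of_nonneg_left _ hη
    have : Real.exp T ≤ Real.exp (Real.sqrt g) := Real.exp_le_exp.mpr (by rw [hT]; linarith)
    linarith
  have h4 : 1 / T = 2 * (1 / Real.sqrt g) := by
    rw [hT]; field_simp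
  have h5 : 0 ≤ η * (Real.exp T - 1) := by
    apply mul_nonneg hη
    have := Real.add_one_le_exp T
    linarith
  have h6 : 0 ≤ 2 * (T ^ (2 * g) / (2 * g)) / G := by positivity
  have h7 : 0 < 1 / Real.sqrt g := by positivity
  calc C * (η * (Real.exp T - 1) + 2 * (T ^ (2 * g) / (2 * g)) / G + 1 / T)
      ≤ |C| * (η * (Real.exp T - 1) + 2 * (T ^ (2 * g) / (2 * g)) / G + 1 / T) := by
        apply mul_le_mul_of_nonneg_right (le_abs_self C)
        have : 0 < 1 / T := by positivity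
        linarith
    _ ≤ (|C| + 1) * (3 * (1 / Real.sqrt g + η * Real.exp (Real.sqrt g))) := by
        apply mul_le_mul (by linarith) _ _ (by positivity)
        · rw [h4]
          have : 0 ≤ η * Real.exp (Real.sqrt g) := by positivity
          linarith
        · rw [h4]; linarith
    _ = 3 * (|C| + 1) * (1 / Real.sqrt g + η * Real.exp (Real.sqrt g)) := by ring

end Pool.Agent.NH22.ST.E8
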