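import Pool.Agent.NH22.ST.E1
import Pool.Agent.NH22.ST.E2
import Pool.Agent.NH22.ST.E3
import Pool.Agent.NH22.ST.E4
import Pool.Agent.NH22.ST.E5
import Pool.Agent.NH22.ST.E6
import Pool.Agent.NH22.ST.E7
import Pool.Agent.NH22.ST.E8

/-!
# Project US, second part: all the steps together
-/

set_option autoImplicit false

namespace Pool.Agent.NH22.ST.All2

open Pool.Agent.NH22.ST

theorem t_GM : S_GM := Pool.Agent.NH22.ST.t_GM
theorem t_GMOM : S_GMOM := E2.t_GMOM t_GM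
theorem t_GTAIL : S_GTAIL := E3.t_GTAIL
theorem t_GCHAR : S_GCHAR := E4.t_GCHAR t_GMOM t_GTAIL
theorem t_ATOM : S_ATOM := E5.t_ATOM
theorem t_CDF : S_CDF := E5.t_CDF t_ATOM
theorem t_SEQ : S_SEQ := E6.t_SEQ t_GCHAR t_ATOM
theorem t_POLYA : S_POLYA := E7.t_POLYA
theorem t_M : S_M := E7.t_M t_SEQ t_CDF t_POLYA
theorem t_QE : S_QE := E8.t_QE t_GM

end Pool.Agent.NH22.ST.All2
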