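import Pool.Agent.NH22.ST.Stm

/-!
# Project US, second part: the large genus limit: statements of the analytic steps
-/

set_option autoImplicit false

namespace Pool.Agent.NH22.ST

open Finset MeasureTheory ProbabilityTheory Filter Topology NNReal

/-- the mean of the variable `Z_k` -/
noncomputable def et (k : ℕ) : ℝ := if Even k then 1 else 0

/-- the law of the independent normal variables `Z_1, ..., Z_i` (mean `et k`, variance `k`) -/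
noncomputable def Gm (i : ℕ) : Measure (Fin i → ℝ) :=
  Measure.pi (fun j : Fin i => gaussianReal (et ((j : ℕ) + 1)) (((j : ℕ) : ℝ≥0) + 1))

/-- the value of the polynomial `Ap i` -/
noncomputable def ev (i : ℕ) (z : Fin i → ℝ) : ℝ :=
  MvPolynomial.eval (fun j => if h : j < i then z ⟨j, h⟩ else 0) (Ap i)

/-- the moments of one variable -/
def S_GM : Prop := ∀ k : ℕ, 0 < k → ∀ m : ℕ, Integrable (fun x : ℝ => x ^ m) (gaussianReal (et k) (k : ℝ≥0)) ∧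
  ∫ x, x ^ m ∂(gaussianReal (et k) (k : ℝ≥0)) = MM k m

/-- the joint moments -/
def S_GMOM : Prop := ∀ (i : ℕ) (e : Fin i → ℕ), Integrable (fun z : Fin i → ℝ => ∏ j, z j ^ e j) (Gm i) ∧
  ∫ z, ∏ j, z j ^ e j ∂(Gm i) = ∏ j : Fin i, MM ((j : ℕ) + 1) (e j)

/-- the moments of linear forms do not grow too fast -/
def S_GTAIL : Prop := ∀ (i : ℕ) (ξ : Fin i → ℝ),
  Tendsto (fun n : ℕ => (∫ z, (∑ j, ξ j * z j) ^ (2 * n) ∂(Gm i)) / (2 * n).factorial) atTop (𝓝 0)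

/-- the moments of the empirical measures converge to those of `Gm` -/
def MomConv (i : ℕ) (s : ℕ → Finset ℕ) (x : ℕ → ℕ → Fin i → ℝ) : Prop :=
  ∀ e : Fin i → ℕ, Tendsto (fun m => (∑ n ∈ s m, ∏ j, x m n j ^ e j) / ((s m).card : ℝ)) atTop
    (𝓝 (∏ j : Fin i, MM ((j : ℕ) + 1) (e j)))

/-- the characteristic functions -/
def S_GCHAR : Prop := ∀ (i : ℕ) (s : ℕ → Finset ℕ) (x : ℕ → ℕ → Fin i → ℝ), (∀ m, (s m).Nonempty) → MomConv i s x →
  ∀ ξ : Fin i → ℝ, Tendsto (fun m => (∑ n ∈ s m, Complex.exp (((∑ j, ξ j * x m n j : ℝ) : ℂ) * Complex.I)) / ((s m).card : ℂ))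
    atTop (𝓝 (∫ z, Complex.exp (((∑ j, ξ j * z j : ℝ) : ℂ) * Complex.I) ∂(Gm i)))

/-- no atoms -/
def S_ATOM : Prop := ∀ (i : ℕ) (t : ℝ), 0 < i → Gm i {z | ev i z = t} = 0

/-- convergence of the distribution functions -/
def S_SEQ : Prop := ∀ (i : ℕ) (s : ℕ → Finset ℕ) (x : ℕ → ℕ → Fin i → ℝ), 0 < i → (∀ m, (s m).Nonempty) → MomConv i s x →
  ∀ t : ℝ, Tendsto (fun m => (((s m).filter (fun n => ev i (x m n) ≤ t)).card : ℝ) / ((s m).card : ℝ)) atTop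
    (𝓝 ((Gm i).real {z | ev i z ≤ t}))

/-- Polya: pointwise convergence of distribution functions to a continuous one is uniform -/
def S_POLYA : Prop := ∀ (F : ℕ → ℝ → ℝ) (G : ℝ → ℝ), (∀ m, Monotone (F m)) → (∀ m t, 0 ≤ F m t ∧ F m t ≤ 1) →
  Monotone G → Continuous G → Tendsto G atBot (𝓝 0) → Tendsto G atTop (𝓝 1) →
  (∀ t, Tendsto (fun m => F m t) atTop (𝓝 (G t))) →
  ∀ ε : ℝ, 0 < ε → ∀ᶠ m in atTop, ∀ t, |F m t - G t| ≤ ε

/-- the distribution function of `ev i` is continuous, with the usual limits -/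
def S_CDF : Prop := ∀ i : ℕ, 0 < i → Monotone (fun t : ℝ => (Gm i).real {z | ev i z ≤ t}) ∧
  Continuous (fun t : ℝ => (Gm i).real {z | ev i z ≤ t}) ∧
  Tendsto (fun t : ℝ => (Gm i).real {z | ev i z ≤ t}) atBot (𝓝 0) ∧
  Tendsto (fun t : ℝ => (Gm i).real {z | ev i z ≤ t}) atTop (𝓝 1)

/-- the method of moments, uniform version -/
def S_M : Prop := ∀ i : ℕ, 0 < i → ∀ ε : ℝ, 0 < ε → ∃ K : ℕ, ∃ η : ℝ, 0 < η ∧
  ∀ (s : Finset ℕ) (x : ℕ → Fin i → ℝ), s.Nonempty →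
    (∀ e : Fin i → ℕ, ∑ j : Fin i, ((j : ℕ) + 1) * e j ≤ K →
      |(∑ n ∈ s, ∏ j, x n j ^ e j) / (s.card : ℝ) - ∏ j : Fin i, MM ((j : ℕ) + 1) (e j)| ≤ η) →
    ∀ t : ℝ, |((s.filter (fun n => ev i (x n) ≤ t)).card : ℝ) / (s.card : ℝ) - (Gm i).real {z | ev i z ≤ t}| ≤ ε

/-- the distribution function from the moments up to `2 g`, quantitative version -/
def S_QE : Prop := ∃ C : ℝ, 0 < C ∧ ∀ (g : ℕ) (s : Finset ℕ) (a : ℕ → ℝ) (η : ℝ), 1 ≤ g → s.Nonempty → 0 ≤ η →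
  (∀ k ≤ 2 * g, |(∑ n ∈ s, a n ^ k) / (s.card : ℝ) - MM 1 k| ≤ η) → ∀ x : ℝ,
    |((s.filter (fun n => a n ≤ x)).card : ℝ) / (s.card : ℝ) - (gaussianReal 0 1).real (Set.Iic x)| ≤
      C * (1 / Real.sqrt g + η * Real.exp (Real.sqrt g))

end Pool.Agent.NH22.ST
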