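import Pool.Agent.NH22.ST.Stm2

/-!
# Project US, second part: moments of the normal law by recursion
-/

set_option autoImplicit false

namespace Pool.Agent.NH22.ST

open Finset MeasureTheory ProbabilityTheory Filter Topology NNReal

namespace E1

/-- all moments are finite -/
lemma int_pow (μ : ℝ) (v : ℝ≥0) (m : ℕ) : Integrable (fun x : ℝ => x ^ m) (gaussianReal μ v) := by
  rcases Nat.eq_zero_or_pos m with rfl | hm
  · simp only [pow_zero]
    exact integrable_const _
  · have h := memLp_id_gaussianReal (μ := μ) (v := v) (m : ℝ≥0)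
    have h2 : MemLp id (m : ENNReal) (gaussianReal μ v) := by exact_mod_cast h
    have h3 := h2.integrable_norm_pow hm.ne'
    refine (integrable_norm_iff ?_).1 ?_
    · exact (measurable_id.pow_const m).aestronglyMeasurable
    · simpa using h3

/-- the same with the density -/
lemma int_pdf (μ : ℝ) {v : ℝ≥0} (hv : v ≠ 0) (m : ℕ) :
    Integrable (fun x : ℝ => gaussianPDFReal μ v x * x ^ m) := by
  have h := int_pow μ v m
  rw [gaussianReal_of_var_ne_zero _ hv, integrable_withDensity_iff_integrable_smul'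
    (measurable_gaussianPDF μ v) (ae_of_all _ fun x => gaussianPDF_lt_top)] at h
  simpa [toReal_gaussianPDF] using h

lemma der_pdf (μ : ℝ) {v : ℝ≥0} (hv : v ≠ 0) (x : ℝ) :
    HasDerivAt (gaussianPDFReal μ v) (-(x - μ) / v * gaussianPDFReal μ v x) x := by
  have hv' : (v : ℝ) ≠ 0 := by exact_mod_cast hv
  unfold gaussianPDFReal
  have h1 : HasDerivAt (fun x : ℝ => -(x - μ) ^ 2 / (2 * v)) (-(x - μ) / v) x := by
    have h2 : HasDerivAt (fun x : ℝ => x - μ) 1 x := (hasDerivAt_id x).sub_const μ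
    have h3 := ((h2.pow 2).neg).div_const (2 * (v : ℝ))
    refine h3.congr_deriv ?_
    field_simp
    push_cast
    ring
  have h4 := (h1.exp).const_mul ((√(2 * Real.pi * v))⁻¹)
  refine h4.congr_deriv ?_
  ring

/-- the recursion of the moments -/
lemma rec_mom (μ : ℝ) {v : ℝ≥0} (hv : v ≠ 0) (m : ℕ) :
    ∫ x, x ^ (m + 2) ∂(gaussianReal μ v) = μ * ∫ x, x ^ (m + 1) ∂(gaussianReal μ v) +
      v * (m + 1) * ∫ x, x ^ m ∂(gaussianReal μ v) := by
  have hv' : (v : ℝ) ≠ 0 := by exact_mod_cast hv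
  have hd : ∀ x : ℝ, HasDerivAt (fun x => gaussianPDFReal μ v x * x ^ (m + 1))
      (((m : ℝ) + 1) * (gaussianPDFReal μ v x * x ^ m) -
        (v : ℝ)⁻¹ * (gaussianPDFReal μ v x * x ^ (m + 2)) +
        (v : ℝ)⁻¹ * μ * (gaussianPDFReal μ v x * x ^ (m + 1))) x := by
    intro x
    refine ((der_pdf μ hv x).mul (hasDerivAt_pow (m + 1) x)).congr_deriv ?_
    push_cast
    field_simp
    ring
  have hi0 := int_pdf μ hv m
  have hi1 := int_pdf μ hv (m + 1)
  have hi2 := int_pdf μ hv (m + 2)
  have ha : Integrable (fun x : ℝ => ((m : ℝ) + 1) * (gaussianPDFReal μ v x * x ^ m) -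
      (v : ℝ)⁻¹ * (gaussianPDFReal μ v x * x ^ (m + 2))) := (hi0.const_mul _).sub (hi2.const_mul _)
  have hb : Integrable (fun x : ℝ => (v : ℝ)⁻¹ * μ * (gaussianPDFReal μ v x * x ^ (m + 1))) :=
    hi1.const_mul _
  have h0 := integral_eq_zero_of_hasDerivAt_of_integrable hd (ha.add hb) hi1
  rw [integral_add ha hb, integral_sub (hi0.const_mul _) (hi2.const_mul _), integral_const_mul, integral_const_mul,
    integral_const_mul] at h0
  rw [integral_gaussianReal_eq_integral_smul hv, integral_gaussianReal_eq_integral_smul hv,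
    integral_gaussianReal_eq_integral_smul hv]
  simp only [smul_eq_mul]
  have h1 : (v : ℝ) * (v : ℝ)⁻¹ = 1 := mul_inv_cancel₀ hv'
  have h2 := congrArg (fun y => (v : ℝ) * y) h0
  simp only [mul_zero] at h2
  linear_combination (-1 : ℝ) * h2 - (∫ x, gaussianPDFReal μ v x * x ^ (m + 2)) * h1 +
    μ * (∫ x, gaussianPDFReal μ v x * x ^ (m + 1)) * h1

lemma mom (k : ℕ) (hk : 0 < k) : ∀ m : ℕ,
    ∫ x, x ^ m ∂(gaussianReal (et k) (k : ℝ≥0)) = MM k m := by
  have hv : (k : ℝ≥0) ≠ 0 := by exact_mod_cast hk.ne'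
  intro m
  induction m using Nat.strong_induction_on with
  | _ m ih =>
    match m with
    | 0 => simp [MM]
    | 1 =>
      simp only [pow_one]
      rw [integral_id_gaussianReal]
      rfl
    | m + 2 =>
      rw [rec_mom _ hv, ih (m + 1) (by omega), ih m (by omega)]
      have : MM k (m + 2) = (if Even k then 1 else 0) * MM k (m + 1) + k * (m + 1) * MM k m := rfl
      rw [this]
      unfold et
      push_cast
      ring

end E1

/-- the moments of one variable -/
theorem t_GM : S_GM := fun k hk m => ⟨E1.int_pow _ _ m, E1.mom k hk m⟩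

end Pool.Agent.NH22.ST
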