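import Mathlib

/-!
# Project US: joint moments of all coefficients of the normalized Euler factors of hyperelliptic
Jacobians of every genus: definitions and statements of the steps
-/

set_option autoImplicit false

namespace Pool.Agent.NH22.ST

open Finset Polynomial

/-- the algebraic closure of the field with `p` elements -/
abbrev Om (p : ℕ) [Fact p.Prime] : Type := AlgebraicClosure (ZMod p)

section
variable (p : ℕ) [Fact p.Prime]

open Classical in
/-- the field with `p ^ k` elements (for `k ≥ 1`) -/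
noncomputable def Lk (k : ℕ) : Finset (Om p) := (X ^ (p ^ k) - X : (Om p)[X]).roots.toFinset

open Classical in
/-- the quadratic character of the field with `p ^ k` elements -/
noncomputable def psi (k : ℕ) (z : Om p) : ℝ :=
  if z = 0 then 0 else if z ^ ((p ^ k - 1) / 2) = 1 then 1 else -1

/-- the value at `y` of the monic polynomial of degree `D` with the coefficients `u` -/
noncomputable def fv {D : ℕ} (u : Fin D → ZMod p) (y : Om p) : Om p :=
  y ^ D + ∑ i, algebraMap (ZMod p) (Om p) (u i) * y ^ (i : ℕ)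

/-- the degree of `x` over the prime field -/
noncomputable def dg (x : Om p) : ℕ := (minpoly (ZMod p) x).natDegree

/-- the lower coefficients of a polynomial -/
def co (D : ℕ) (h : (ZMod p)[X]) : Fin D → ZMod p := fun i => h.coeff i

/-- the character sum over the field with `p ^ k` elements -/
noncomputable def SS (k : ℕ) {D : ℕ} (u : Fin D → ZMod p) : ℝ := ∑ y ∈ Lk p k, psi p k (fv p u y)

open Classical in
/-- the part of the character sum which comes from the elements that are not conjugate to `x` -/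
noncomputable def RR (x : Om p) (k : ℕ) {D : ℕ} (u : Fin D → ZMod p) : ℝ :=
  ∑ y ∈ (Lk p k).filter (fun y => minpoly (ZMod p) y ≠ minpoly (ZMod p) x), psi p k (fv p u y)

/-- the mixed sums -/
noncomputable def HH (D : ℕ) (x : Om p) (a : ℕ) (s t : Multiset ℕ) : ℝ :=
  ∑ u : Fin D → ZMod p, psi p (dg p x) (fv p u x) ^ a * (s.map (fun k => SS p k u)).prod *
    (t.map (fun k => RR p x k u)).prod

/-- the sums without `x` -/
noncomputable def FF (D : ℕ) (s : Multiset ℕ) : ℝ :=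
  ∑ u : Fin D → ZMod p, (s.map (fun k => SS p k u)).prod

end

/-- the moments of the normal distribution with variance `k` and mean `1` (if `k` is even) or `0` (if `k` is odd) -/
noncomputable def MM (k : ℕ) : ℕ → ℝ
  | 0 => 1
  | 1 => if Even k then 1 else 0
  | (m + 2) => (if Even k then 1 else 0) * MM k (m + 1) + k * (m + 1) * MM k m

/-- the mean of the product of the independent normal variables with the indices in the multiset -/
noncomputable def AA (s : Multiset ℕ) : ℝ := ∏ k ∈ s.toFinset, MM k (s.count k)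

/-- the expectation of a polynomial in independent normal variables: the variable `X j` has the
variance `j + 1` and the mean `1` (if `j + 1` is even) or `0` (if `j + 1` is odd) -/
noncomputable def EG (P : MvPolynomial ℕ ℝ) : ℝ :=
  ∑ m ∈ P.support, P.coeff m * ∏ j ∈ m.support, MM (j + 1) (m j)

/-- the polynomials that express the coefficients in the power sums: `A_0 = 1`,
`(i + 1) A_{i+1} = ∑_{j ≤ i} Z_{j+1} A_{i-j}`, where the variable `Z_{j+1}` is `X j` -/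
noncomputable def Ap : ℕ → MvPolynomial ℕ ℝ
  | 0 => 1
  | i + 1 => MvPolynomial.C (1 / ((i : ℝ) + 1)) * ∑ j : Fin (i + 1), MvPolynomial.X (j : ℕ) * Ap (i - j)

/-- the symmetric matrices with entries in the nonnegative integers with even diagonal and the row
sums `v` -/
def Mats {m : ℕ} (v : Fin m → ℕ) : Set (Fin m → Fin m → ℕ) :=
  {B | (∀ i j, B i j = B j i) ∧ (∀ i, Even (B i i)) ∧ ∀ i, ∑ j, B i j = v i}

/-! ### The statements -/

/-- elements of `Lk` -/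
def S_MEM : Prop := ∀ (p : ℕ) [Fact p.Prime] (k : ℕ), 0 < k →
  (∀ x : Om p, x ∈ Lk p k ↔ x ^ (p ^ k) = x) ∧ (Lk p k).card = p ^ k

/-- the degrees of the elements of `Lk` -/
def S_DEG : Prop := ∀ (p : ℕ) [Fact p.Prime] (x : Om p), 0 < dg p x ∧
  (∀ k : ℕ, 0 < k → (x ∈ Lk p k ↔ dg p x ∣ k))

/-- `F_p(x)` is the field with `p ^ dg x` elements -/
def S_ADJ : Prop := ∀ (p : ℕ) [Fact p.Prime] (x z : Om p), z ∈ Lk p (dg p x) →
  ∃ h : (ZMod p)[X], h.natDegree < dg p x ∧ aeval x h = z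

open Classical in
/-- the number of the conjugates -/
def S_CLS : Prop := ∀ (p : ℕ) [Fact p.Prime] (x : Om p) (k : ℕ), 0 < k →
  ((Lk p k).filter (fun y => minpoly (ZMod p) y = minpoly (ZMod p) x)).card =
    if dg p x ∣ k then dg p x else 0

/-- the characters at conjugate elements -/
def S_CONJ : Prop := ∀ (p : ℕ) [Fact p.Prime] (D : ℕ) (u : Fin D → ZMod p) (x y : Om p) (k : ℕ),
  minpoly (ZMod p) y = minpoly (ZMod p) x → psi p k (fv p u y) = psi p k (fv p u x)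

/-- properties of the characters -/
def S_PSI : Prop := ∀ (p : ℕ) [Fact p.Prime], p ≠ 2 → ∀ k : ℕ, 0 < k →
  (∀ z ∈ Lk p k, ∀ w ∈ Lk p k, z * w ∈ Lk p k ∧ psi p k (z * w) = psi p k z * psi p k w) ∧
  (∃ c ∈ Lk p k, psi p k c = -1) ∧
  (∀ d : ℕ, d ∣ k → ∀ z ∈ Lk p d, psi p k z = psi p d z ^ (k / d)) ∧
  (∀ (D : ℕ) (u : Fin D → ZMod p), ∀ y ∈ Lk p k, fv p u y ∈ Lk p k)

/-- twisting: the basic vanishing -/
def S_TW : Prop := ∀ (p : ℕ) [Fact p.Prime], p ≠ 2 → ∀ (D : ℕ) (x : Om p) (E : (ZMod p)[X]),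
  E.natDegree + dg p x ≤ D → aeval x E ≠ 0 → ∀ Ψ : (Fin D → ZMod p) → ℝ,
  (∀ (u : Fin D → ZMod p) (R : (ZMod p)[X]), (E * R).natDegree < D → Ψ (u + co p D (E * R)) = Ψ u) →
  ∀ a : ℕ, Odd a → ∑ u : Fin D → ZMod p, psi p (dg p x) (fv p u x) ^ a * Ψ u = 0

/-- twisting: the vanishing for products of sums over elements which are not conjugate to `x` -/
def S_TWR : Prop := ∀ (p : ℕ) [Fact p.Prime], p ≠ 2 → ∀ (D : ℕ) (x : Om p) (t : Multiset ℕ),
  (∀ k ∈ t, 0 < k) → dg p x + t.sum ≤ D → ∀ a : ℕ, Odd a → HH p D x a 0 t = 0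

/-- the splitting of the character sum -/
def S_SR : Prop := ∀ (p : ℕ) [Fact p.Prime], p ≠ 2 → ∀ (D : ℕ) (u : Fin D → ZMod p) (x : Om p) (k : ℕ), 0 < k →
  SS p k u = RR p x k u +
    (if dg p x ∣ k then (dg p x : ℝ) * psi p (dg p x) (fv p u x) ^ (k / dg p x) else 0)

/-- Weil's bound -/
def S_WEIL : Prop := ∀ (p : ℕ) [Fact p.Prime], p ≠ 2 → ∀ (g : ℕ) (u : Fin (2 * g + 1) → ZMod p) (k : ℕ), 0 < k →
  |SS p k u| ≤ 2 * g * (Real.sqrt p) ^ k

/-- the number of the points of `Y ^ 2 = f(X)` over the field with `p ^ k` elements -/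
def S_PTS : Prop := ∀ (p : ℕ) [Fact p.Prime], p ≠ 2 → ∀ (D : ℕ) (u : Fin D → ZMod p) (k : ℕ), 0 < k →
  (Nat.card {P : Om p × Om p // P.1 ^ (p ^ k) = P.1 ∧ P.2 ^ (p ^ k) = P.2 ∧ P.2 ^ 2 = fv p u P.1} : ℝ) =
    (p : ℝ) ^ k + SS p k u

/-- first bound for the mixed sums, `a` odd -/
def S_U : Prop := ∀ (g : ℕ) (s t : Multiset ℕ), (∀ k ∈ s, 0 < k) → (∀ k ∈ t, 0 < k) → ∃ C : ℝ, 0 ≤ C ∧
  ∀ (p : ℕ) [Fact p.Prime], p ≠ 2 → ∀ x : Om p, dg p x + s.sum + t.sum ≤ 2 * g + 1 → ∀ a : ℕ, Odd a →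
    |HH p (2 * g + 1) x a s t| * (Real.sqrt p) ^ (dg p x) ≤
      C * (p : ℝ) ^ (2 * g + 1) * (Real.sqrt p) ^ (s.sum + t.sum)

/-- the main term of the mixed sums, `a` odd -/
def S_ONE : Prop := ∀ (g : ℕ) (s t : Multiset ℕ), (∀ k ∈ s, 0 < k) → (∀ k ∈ t, 0 < k) → ∃ C : ℝ, 0 ≤ C ∧
  ∀ (p : ℕ) [Fact p.Prime], p ≠ 2 → ∀ x : Om p, dg p x + s.sum + t.sum ≤ 2 * g + 1 → ∀ a : ℕ, Odd a →
    |HH p (2 * g + 1) x a s t - dg p x * s.count (dg p x) * HH p (2 * g + 1) x (a + 1) (s.erase (dg p x)) t| *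
      (Real.sqrt p) ^ (3 * dg p x) ≤ C * (p : ℝ) ^ (2 * g + 1) * (Real.sqrt p) ^ (s.sum + t.sum)

/-- the mixed sums, `a` even and positive -/
def S_EV : Prop := ∀ (g : ℕ) (s : Multiset ℕ), (∀ k ∈ s, 0 < k) → ∃ C : ℝ, 0 ≤ C ∧
  ∀ (p : ℕ) [Fact p.Prime], p ≠ 2 → ∀ x : Om p, ∀ a : ℕ, 0 < a → Even a →
    |HH p (2 * g + 1) x a s 0 - FF p (2 * g + 1) s| * p ≤ C * (p : ℝ) ^ (2 * g + 1) * (Real.sqrt p) ^ s.sum

/-- the recursion for the moments -/
def S_REC : Prop := ∀ (g k : ℕ) (s : Multiset ℕ), 0 < k → (∀ j ∈ s, 0 < j) → k + s.sum ≤ 2 * g + 1 →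
  ∃ C : ℝ, 0 ≤ C ∧ ∀ (p : ℕ) [Fact p.Prime], p ≠ 2 →
    |FF p (2 * g + 1) (k ::ₘ s) - (if Even k then 1 else 0) * (Real.sqrt p) ^ k * FF p (2 * g + 1) s -
      k * s.count k * (p : ℝ) ^ k * FF p (2 * g + 1) (s.erase k)| * p ≤
      C * (p : ℝ) ^ (2 * g + 1) * (Real.sqrt p) ^ (k + s.sum)

/-- the moments -/
def S_LOC : Prop := ∀ (g : ℕ) (s : Multiset ℕ), (∀ j ∈ s, 0 < j) → s.sum ≤ 2 * g + 1 →
  ∃ C : ℝ, 0 ≤ C ∧ ∀ (p : ℕ) [Fact p.Prime], p ≠ 2 →
    |FF p (2 * g + 1) s / ((p : ℝ) ^ (2 * g + 1) * (Real.sqrt p) ^ s.sum) - AA s| ≤ C / p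

/-- the main terms for the coefficients are numbers of matrices -/
def S_MAT : Prop := ∀ (m : ℕ) (v : Fin m → ℕ), EG (∏ j, Ap (v j)) = ((Mats v).ncard : ℝ)

/-- the recursion for the main terms, for the expectations -/
def S_MATE : Prop := ∀ (m : ℕ) (v : Fin m → ℕ) (r : Fin m), (v r : ℝ) * EG (∏ j, Ap (v j)) =
  2 * ∑ k ∈ Icc 1 (v r / 2), EG (∏ j, Ap ((Function.update v r (v r - 2 * k)) j)) +
  ∑ i ∈ univ.erase r, ∑ k ∈ Icc 1 (min (v r) (v i)),
    EG (∏ j, Ap ((Function.update (Function.update v r (v r - k)) i (v i - k)) j))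

/-- the recursion for the main terms, for the numbers of matrices -/
def S_MATN : Prop := ∀ (m : ℕ) (v : Fin m → ℕ) (r : Fin m), (v r : ℝ) * ((Mats v).ncard : ℝ) =
  2 * ∑ k ∈ Icc 1 (v r / 2), ((Mats (Function.update v r (v r - 2 * k))).ncard : ℝ) +
  ∑ i ∈ univ.erase r, ∑ k ∈ Icc 1 (min (v r) (v i)),
    ((Mats (Function.update (Function.update v r (v r - k)) i (v i - k))).ncard : ℝ)

/-- the weights of the monomials of the products of the `Ap` -/
def S_WT : Prop := ∀ (m : ℕ) (v : Fin m → ℕ), ∀ d ∈ (∏ j, Ap (v j)).support,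
  ∑ j ∈ d.support, (j + 1) * d j = ∑ j, v j

/-- the local means of polynomials in the normalised character sums -/
def S_POLY : Prop := ∀ (g : ℕ) (P : MvPolynomial ℕ ℝ), (∀ d ∈ P.support, ∑ j ∈ d.support, (j + 1) * d j ≤ 2 * g + 1) →
  ∃ C : ℝ, 0 ≤ C ∧ ∀ (p : ℕ) [Fact p.Prime], p ≠ 2 →
    |(∑ u : Fin (2 * g + 1) → ZMod p,
        MvPolynomial.eval (fun j => SS p (j + 1) u / (Real.sqrt p) ^ (j + 1)) P) / (p : ℝ) ^ (2 * g + 1) - EG P| ≤ C / p

end Pool.Agent.NH22.ST
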